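import Pool.Agent.Helper61.GR.Dv
import Mathlib.Analysis.SpecialFunctions.SmoothTransition

set_option autoImplicit false

/-!
# Cutting off functions of doubly exponential decay
-/

namespace Pool.Agent.Helper61.GR

open Complex Filter Topology Set MeasureTheory
open Pool.Agent.Helper61.W Pool.Agent.Helper61.W.GS
open scoped ComplexConjugate ContDiff

variable {c C : ℝ} {f g : ℝ → ℂ}

lemma SB.mulr {h : ℝ → ℝ} {B : ℝ} (hs : ContDiff ℝ ∞ h) (b0 : ∀ x, |h x| ≤ B) (b1 : ∀ x, |deriv h x| ≤ B)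
    (b2 : ∀ x, |deriv (deriv h) x| ≤ B) (hf : SB c C f) : SB c (4 * B * C) (fun x => (h x : ℂ) * f x) := by
  have hB : 0 ≤ B := (abs_nonneg _).trans (b0 0)
  have hC := hf.C_nonneg
  have hd : ∀ x, HasDerivAt h (deriv h x) x := fun x => ((hs.differentiable (by simp)) x).hasDerivAt
  have hs1 := (contDiff_infty_iff_deriv.mp hs).2
  have hd1 : ∀ x, HasDerivAt (deriv h) (deriv (deriv h) x) x := fun x =>
    ((hs1.differentiable (by simp)) x).hasDerivAt
  have e1 : ∀ x, HasDerivAt (fun x => (h x : ℂ) * f x) (((deriv h x : ℝ) : ℂ) * f x + (h x : ℂ) * deriv f x) x := fun x =>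
    (hd x).ofReal_comp.mul (hf.hd x)
  have e1' : deriv (fun x => (h x : ℂ) * f x) = fun x => ((deriv h x : ℝ) : ℂ) * f x + (h x : ℂ) * deriv f x :=
    funext fun x => (e1 x).deriv
  have e2 : ∀ x, deriv (deriv (fun x => (h x : ℂ) * f x)) x =
      (((deriv (deriv h) x : ℝ) : ℂ) * f x + ((deriv h x : ℝ) : ℂ) * deriv f x) +
        (((deriv h x : ℝ) : ℂ) * deriv f x + (h x : ℂ) * deriv (deriv f) x) := by
    intro x
    rw [e1']
    exact (((hd1 x).ofReal_comp.mul (hf.hd x)).add ((hd x).ofReal_comp.mul (hf.hd1 x))).deriv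
  have key : ∀ (s : ℝ) (z : ℂ) (x : ℝ), |s| ≤ B → ‖z‖ ≤ C * EE c x → ‖(s : ℂ) * z‖ ≤ B * (C * EE c x) := by
    intro s z x h1 h2
    rw [norm_mul, Complex.norm_real, Real.norm_eq_abs]
    exact mul_le_mul h1 h2 (norm_nonneg _) hB
  have hP : ∀ x, 0 ≤ B * (C * EE c x) := fun x => by
    have := (EE_pos c x).le
    positivity
  have hsm : ContDiff ℝ ∞ (fun x => (h x : ℂ) * f x) := by
    have h1 : ContDiff ℝ ∞ (fun x => (h x : ℂ)) := Complex.ofRealCLM.contDiff.comp hs
    exact h1.mul hf.smooth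
  have hb0 : ∀ x, ‖(h x : ℂ) * f x‖ ≤ 4 * B * C * EE c x := by
    intro x
    have h1 := key _ _ x (b0 x) (hf.b0 x)
    have h2 := hP x
    linarith
  have hb1 : ∀ x, ‖deriv (fun x => (h x : ℂ) * f x) x‖ ≤ 4 * B * C * EE c x := by
    intro x
    rw [e1']
    have h1 := key _ _ x (b1 x) (hf.b0 x)
    have h2 := key _ _ x (b0 x) (hf.b1 x)
    have h3 := hP x
    refine (norm_add_le _ _).trans ?_
    linarith
  have hb2 : ∀ x, ‖deriv (deriv (fun x => (h x : ℂ) * f x)) x‖ ≤ 4 * B * C * EE c x := by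
    intro x
    rw [e2]
    have h1 := key _ _ x (b2 x) (hf.b0 x)
    have h2 := key _ _ x (b1 x) (hf.b1 x)
    have h3 := key _ _ x (b0 x) (hf.b2 x)
    refine (norm_add_le _ _).trans ((add_le_add (norm_add_le _ _) (norm_add_le _ _)).trans ?_)
    linarith
  exact ⟨hsm, hb0, hb1, hb2⟩

/-- bounds of the smooth transition -/
lemma st_bound : ∃ B : ℝ, 1 ≤ B ∧ ∀ x, |deriv Real.smoothTransition x| ≤ B ∧
    |deriv (deriv Real.smoothTransition) x| ≤ B := by
  have hs : ContDiff ℝ ∞ Real.smoothTransition := Real.smoothTransition.contDiff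
  have hs1 := (contDiff_infty_iff_deriv.mp hs).2
  have hs2 := (contDiff_infty_iff_deriv.mp hs1).2
  have hc1 : HasCompactSupport (deriv Real.smoothTransition) := by
    apply HasCompactSupport.intro (isCompact_Icc (a := (0 : ℝ)) (b := 1))
    intro x hx
    rw [mem_Icc, not_and_or, not_le, not_le] at hx
    rcases hx with hx | hx
    · have : Real.smoothTransition =ᶠ[𝓝 x] fun _ => 0 := by
        filter_upwards [eventually_lt_nhds hx] with y hy
        exact Real.smoothTransition.zero_of_nonpos hy.le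
      rw [this.deriv_eq, deriv_const]
    · have : Real.smoothTransition =ᶠ[𝓝 x] fun _ => 1 := by
        filter_upwards [eventually_gt_nhds hx] with y hy
        exact Real.smoothTransition.one_of_one_le hy.le
      rw [this.deriv_eq, deriv_const]
  obtain ⟨B1, hB1⟩ := hs1.continuous.bounded_above_of_compact_support hc1
  obtain ⟨B2, hB2⟩ := hs2.continuous.bounded_above_of_compact_support hc1.deriv
  refine ⟨max 1 (max B1 B2), le_max_left _ _, fun x => ⟨?_, ?_⟩⟩
  · exact (hB1 x).trans ((le_max_left _ _).trans (le_max_right _ _))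
  · exact (hB2 x).trans ((le_max_right _ _).trans (le_max_right _ _))

/-- the cutoff -/
noncomputable def hcut (a x : ℝ) : ℝ := Real.smoothTransition (a - x) * Real.smoothTransition (a + x)

lemma hcut_smooth (a : ℝ) : ContDiff ℝ ∞ (hcut a) := by
  have hs : ContDiff ℝ ∞ Real.smoothTransition := Real.smoothTransition.contDiff
  exact (hs.comp (contDiff_const.sub contDiff_id)).mul (hs.comp (contDiff_const.add contDiff_id))

lemma hcut_zero {a x : ℝ} (h : a ≤ |x|) : hcut a x = 0 := by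
  unfold hcut
  rcases le_total 0 x with hx | hx
  · rw [abs_of_nonneg hx] at h
    rw [Real.smoothTransition.zero_of_nonpos (by linarith), zero_mul]
  · rw [abs_of_nonpos hx] at h
    rw [Real.smoothTransition.zero_of_nonpos (x := a + x) (by linarith), mul_zero]

lemma hcut_one {a x : ℝ} (h : |x| ≤ a - 1) : hcut a x = 1 := by
  unfold hcut
  rw [abs_le] at h
  rw [Real.smoothTransition.one_of_one_le (by linarith), Real.smoothTransition.one_of_one_le (by linarith), mul_one]

lemma hcut_bounds : ∃ B : ℝ, 1 ≤ B ∧ ∀ a x, |hcut a x| ≤ 1 ∧ |deriv (hcut a) x| ≤ B ∧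
    |deriv (deriv (hcut a)) x| ≤ B := by
  obtain ⟨B, hB1, hB⟩ := st_bound
  have hs : ContDiff ℝ ∞ Real.smoothTransition := Real.smoothTransition.contDiff
  have hs1 := (contDiff_infty_iff_deriv.mp hs).2
  have hd : ∀ x, HasDerivAt Real.smoothTransition (deriv Real.smoothTransition x) x := fun x =>
    ((hs.differentiable (by simp)) x).hasDerivAt
  have hd1 : ∀ x, HasDerivAt (deriv Real.smoothTransition) (deriv (deriv Real.smoothTransition) x) x := fun x =>
    ((hs1.differentiable (by simp)) x).hasDerivAt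
  have h01 : ∀ x, |Real.smoothTransition x| ≤ 1 := fun x => by
    rw [abs_of_nonneg (Real.smoothTransition.nonneg x)]
    exact Real.smoothTransition.le_one x
  set σ := Real.smoothTransition with hσ
  set σ1 := deriv σ with hσ1
  set σ2 := deriv σ1 with hσ2
  have i1 : ∀ a x : ℝ, HasDerivAt (fun x => a - x) (-1) x := fun a x => by
    simpa using (hasDerivAt_id x).const_sub a
  have i2 : ∀ a x : ℝ, HasDerivAt (fun x => a + x) 1 x := fun a x => by
    simpa using (hasDerivAt_id x).const_add a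
  have p0 : ∀ a x : ℝ, HasDerivAt (fun x => σ (a - x)) (-σ1 (a - x)) x := fun a x => by
    refine ((hd (a - x)).comp x (i1 a x)).congr_deriv ?_
    ring
  have q0 : ∀ a x : ℝ, HasDerivAt (fun x => σ (a + x)) (σ1 (a + x)) x := fun a x => by
    refine ((hd (a + x)).comp x (i2 a x)).congr_deriv ?_
    ring
  have p1 : ∀ a x : ℝ, HasDerivAt (fun x => σ1 (a - x)) (-σ2 (a - x)) x := fun a x => by
    refine ((hd1 (a - x)).comp x (i1 a x)).congr_deriv ?_
    ring
  have q1 : ∀ a x : ℝ, HasDerivAt (fun x => σ1 (a + x)) (σ2 (a + x)) x := fun a x => by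
    refine ((hd1 (a + x)).comp x (i2 a x)).congr_deriv ?_
    ring
  have d1 : ∀ a : ℝ, deriv (hcut a) = fun x => -σ1 (a - x) * σ (a + x) + σ (a - x) * σ1 (a + x) := fun a =>
    funext fun x => ((p0 a x).mul (q0 a x)).deriv
  have d2 : ∀ a x : ℝ, deriv (deriv (hcut a)) x =
      (-(-σ2 (a - x)) * σ (a + x) + -σ1 (a - x) * σ1 (a + x)) +
        (-σ1 (a - x) * σ1 (a + x) + σ (a - x) * σ2 (a + x)) := by
    intro a x
    rw [d1]
    exact (((p1 a x).neg.mul (q0 a x)).add ((p0 a x).mul (q1 a x))).deriv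
  have hBB : B ≤ B * B := by nlinarith
  have key : ∀ s t u v : ℝ, |s| ≤ u → |t| ≤ v → |s * t| ≤ u * v := fun s t u v h1 h2 => by
    rw [abs_mul]
    exact mul_le_mul h1 h2 (abs_nonneg _) ((abs_nonneg _).trans h1)
  refine ⟨4 * (B * B), by nlinarith, fun a x => ⟨?_, ?_, ?_⟩⟩
  · have := key _ _ _ _ (h01 (a - x)) (h01 (a + x))
    rw [mul_one] at this
    exact this
  · rw [d1]
    have k1 := key (-σ1 (a - x)) (σ (a + x)) B 1 (by rw [abs_neg]; exact (hB _).1) (h01 _)
    have k2 := key (σ (a - x)) (σ1 (a + x)) 1 B (h01 _) (hB _).1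
    refine (abs_add_le _ _).trans ?_
    linarith
  · rw [d2]
    have k1 := key (-(-σ2 (a - x))) (σ (a + x)) B 1 (by rw [neg_neg]; exact (hB _).2) (h01 _)
    have k2 := key (-σ1 (a - x)) (σ1 (a + x)) B B (by rw [abs_neg]; exact (hB _).1) (hB _).1
    have k3 := key (σ (a - x)) (σ2 (a + x)) 1 B (h01 _) (hB _).2
    have k4 := abs_add_le (-(-σ2 (a - x)) * σ (a + x)) (-σ1 (a - x) * σ1 (a + x))
    have k5 := abs_add_le (-σ1 (a - x) * σ1 (a + x)) (σ (a - x) * σ2 (a + x))
    refine (abs_add_le _ _).trans ?_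
    linarith

lemma LT_far (hc : 0 < c) (hC : 0 ≤ C) (h : ∀ x, ‖f x‖ ≤ C * EE c x) {r : ℝ}
    (h0 : ∀ x, |x| < r → f x = 0) {z : ℂ} (hz : z.re = 0) :
    ‖W.LT f z‖ ≤ C * IE (c / 2) * Real.exp (-(c / 2 * Real.exp (2 * r))) := by
  have e : W.LT f z = ∫ y in {x : ℝ | r ≤ |x|}, f y * cexp (z * y) := by
    unfold W.LT
    symm
    apply setIntegral_eq_integral_of_forall_compl_eq_zero
    intro x hx
    rw [mem_ofPred_eq, not_le] at hx
    rw [h0 x hx, zero_mul]
  rw [e]
  refine tail_int hc hC (fun x => ?_) ?_ (fun y hy => hy)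
  · rw [norm_mul, norm_cexp_line hz, mul_one]
    exact h x
  · exact (isClosed_le continuous_const continuous_abs).measurableSet

lemma EE_mul_abs (hc : 0 < c) (x : ℝ) : |x| * EE c x ≤ 2 / c * EE (c / 2) x := by
  have h1 := EE_tail (r := |x|) hc (le_refl |x|)
  set t : ℝ := c / 2 * Real.exp (2 * |x|) with ht
  have h2 : c / 2 * |x| ≤ t := by
    apply mul_le_mul_of_nonneg_left _ (by positivity)
    have := Real.add_one_le_exp (2 * |x|)
    have := abs_nonneg x
    linarith
  have h3 : t * Real.exp (-t) ≤ 1 := by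
    rw [Real.exp_neg, ← div_eq_mul_inv, div_le_one (Real.exp_pos t)]
    have := Real.add_one_le_exp t
    linarith
  have h4 : |x| * Real.exp (-t) ≤ 2 / c := by
    rw [le_div_iff₀ hc]
    have := mul_le_mul_of_nonneg_right h2 (Real.exp_pos (-t)).le
    linarith
  calc |x| * EE c x ≤ |x| * (Real.exp (-t) * EE (c / 2) x) := mul_le_mul_of_nonneg_left h1 (abs_nonneg x)
    _ = (|x| * Real.exp (-t)) * EE (c / 2) x := by ring
    _ ≤ _ := mul_le_mul_of_nonneg_right h4 (EE_pos _ _).le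

lemma exp_lip {z z' : ℂ} (hz : z.re = 0) (hz' : z'.re = 0) (x : ℝ) :
    ‖cexp (z * x) - cexp (z' * x)‖ ≤ |x| * ‖z - z'‖ := by
  have e0 : z - z' = (((z.im - z'.im : ℝ)) : ℂ) * I := by
    apply Complex.ext
    · simp [hz, hz']
    · simp
  have e1 : cexp (z * x) - cexp (z' * x) = cexp (z' * x) * (cexp (I * (((z.im - z'.im) * x : ℝ) : ℂ)) - 1) := by
    rw [mul_sub, ← Complex.exp_add, mul_one]
    congr 2
    have : z = z' + (((z.im - z'.im : ℝ)) : ℂ) * I := by
      rw [← e0]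
      ring
    conv_lhs => rw [this]
    push_cast
    ring
  rw [e1, norm_mul, norm_cexp_line hz', one_mul]
  refine Real.norm_exp_I_mul_ofReal_sub_one_le.trans (le_of_eq ?_)
  rw [e0, norm_mul (((z.im - z'.im : ℝ)) : ℂ) I, Complex.norm_I, mul_one, Complex.norm_real, Real.norm_eq_abs,
    Real.norm_eq_abs, abs_mul]
  ring

lemma LT_lip (hc : 0 < c) (hC : 0 ≤ C) (hf : Continuous f) (h : ∀ x, ‖f x‖ ≤ C * EE c x) {z z' : ℂ} (hz : z.re = 0)
    (hz' : z'.re = 0) : ‖W.LT f z - W.LT f z'‖ ≤ C * (2 / c) * IE (c / 2) * ‖z - z'‖ := by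
  unfold W.LT
  rw [← integral_sub (int_exp hc hf h hz) (int_exp hc hf h hz')]
  have h1 : ∫ x, C * (2 / c) * ‖z - z'‖ * EE (c / 2) x = C * (2 / c) * IE (c / 2) * ‖z - z'‖ := by
    rw [integral_const_mul]
    unfold IE
    ring
  rw [← h1]
  refine norm_integral_le_of_norm_le ((EE_int (half_pos hc)).const_mul _) (Eventually.of_forall fun x => ?_)
  rw [← mul_sub, norm_mul]
  have h2 := exp_lip hz hz' x
  have h3 := EE_mul_abs hc x
  calc ‖f x‖ * ‖cexp (z * x) - cexp (z' * x)‖ ≤ (C * EE c x) * (|x| * ‖z - z'‖) :=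
        mul_le_mul (h x) h2 (norm_nonneg _) (mul_nonneg hC (EE_pos _ _).le)
    _ = C * ‖z - z'‖ * (|x| * EE c x) := by ring
    _ ≤ C * ‖z - z'‖ * (2 / c * EE (c / 2) x) := mul_le_mul_of_nonneg_left h3 (by positivity)
    _ = _ := by ring

/-- cutting off -/
theorem cut (hc : 0 < c) {k : ℝ → ℂ} (hk : SB c C k) (w : ℂ) : ∃ M c' : ℝ, 0 ≤ M ∧ 0 < c' ∧ ∀ a : ℝ, 0 < a →
    ∃ g : Ts a, ‖toL a g‖ ≤ M ∧ ‖toL a (Ao a w g)‖ ≤ M ∧
      (∀ z z' : ℂ, z.re = 0 → z'.re = 0 → ‖W.LT g z - W.LT g z'‖ ≤ M * ‖z - z'‖) ∧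
      ∀ z : ℂ, z.re = 0 → ‖W.LT g z - W.LT k z‖ * (1 + |z.im| ^ 2) ≤ M * Real.exp (-(c' * Real.exp (2 * a))) := by
  obtain ⟨B, hB1, hB⟩ := hcut_bounds
  have hC := hk.C_nonneg
  set C4 : ℝ := 4 * B * C with hC4
  have hC40 : 0 ≤ C4 := by positivity
  set N : ℝ := Real.sqrt (((1 + ‖w‖) * C4) ^ 2 * IE c) with hN
  refine ⟨N + 2 * (C4 * IE (c / 2)) + C4 * (2 / c) * IE (c / 2), c / 2 * Real.exp (-2), ?_, by positivity,
    fun a ha => ?_⟩
  · have := IE_nonneg (c / 2)
    positivity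
  have hg := hk.mulr (hcut_smooth a) (B := B) (fun x => ((hB a x).1).trans hB1) (fun x => (hB a x).2.1)
    (fun x => (hB a x).2.2)
  rw [← hC4] at hg
  have hmem : (fun x => (hcut a x : ℂ) * k x) ∈ Ts a :=
    ⟨hg.smooth, fun x hx => by simp only [hcut_zero hx.le, Complex.ofReal_zero, zero_mul]⟩
  -- the rest
  have hu1 : ∀ x, HasDerivAt (fun x => 1 - hcut a x) (-deriv (hcut a) x) x := fun x =>
    ((((hcut_smooth a).differentiable (by simp)) x).hasDerivAt).const_sub 1
  have hu1' : deriv (fun x => 1 - hcut a x) = fun x => -deriv (hcut a) x := funext fun x => (hu1 x).deriv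
  have hu2 : ∀ x, deriv (deriv (fun x => 1 - hcut a x)) x = -deriv (deriv (hcut a)) x := by
    intro x
    rw [hu1']
    exact deriv.fun_neg
  have ht := hk.mulr (h := fun x => 1 - hcut a x) (contDiff_const.sub (hcut_smooth a)) (B := B)
    (fun x => by
      have h1 : 0 ≤ hcut a x := mul_nonneg (Real.smoothTransition.nonneg _) (Real.smoothTransition.nonneg _)
      have h2 := (hB a x).1
      rw [abs_of_nonneg h1] at h2
      rw [abs_of_nonneg (by linarith)]
      linarith)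
    (fun x => by rw [hu1', abs_neg]; exact (hB a x).2.1)
    (fun x => by rw [hu2, abs_neg]; exact (hB a x).2.2)
  rw [← hC4] at ht
  set t : ℝ → ℂ := fun x => ((1 - hcut a x : ℝ) : ℂ) * k x with htdef
  have hIE := IE_nonneg (c / 2)
  have hN0 : 0 ≤ N := Real.sqrt_nonneg _
  have hIEc := IE_nonneg c
  -- the norms
  have hnorm : ∀ q : Ts a, (∀ x, ‖(q : ℝ → ℂ) x‖ ≤ (1 + ‖w‖) * C4 * EE c x) → ‖toL a q‖ ≤ N := by
    intro q hq
    rw [hN]
    apply Real.le_sqrt_of_sq_le
    rw [norm_toL]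
    unfold IE
    rw [← integral_const_mul]
    have hqi : Integrable (fun x => ‖(q : ℝ → ℂ) x‖ ^ 2) := by
      have hc' : Continuous fun x => ‖(q : ℝ → ℂ) x‖ ^ 2 := (Ts.tf q.2).cont.norm.pow 2
      exact hc'.integrable_of_hasCompactSupport ((Ts.tf q.2).supp.comp_left (g := fun z : ℂ => ‖z‖ ^ 2) (by simp))
    refine integral_mono hqi ((EE_int hc).const_mul _) fun x => ?_
    have h1 := pow_le_pow_left₀ (norm_nonneg _) (hq x) 2
    refine h1.trans ?_
    rw [mul_pow]
    refine mul_le_mul_of_nonneg_left ?_ (sq_nonneg _)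
    have := EE_le_one hc x
    have := EE_pos c x
    nlinarith
  have hLp : 0 ≤ C4 * (2 / c) * IE (c / 2) := by positivity
  refine ⟨⟨_, hmem⟩, ?_, ?_, fun z z' hz hz' => ?_, fun z hz => ?_⟩
  · have := hnorm ⟨_, hmem⟩ (fun x => (hg.b0 x).trans (by
      have := (EE_pos c x).le
      have := norm_nonneg w
      have : 0 ≤ ‖w‖ * C4 * EE c x := by positivity
      linarith))
    linarith [mul_nonneg hC40 hIE]
  · have := hnorm (Ao a w ⟨_, hmem⟩) (fun x => by
      have e : (Ao a w ⟨_, hmem⟩ : ℝ → ℂ) x = -(deriv (fun x => (hcut a x : ℂ) * k x) x +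
        w * ((hcut a x : ℂ) * k x)) := rfl
      rw [e, norm_neg]
      refine (norm_add_le _ _).trans ?_
      rw [norm_mul]
      have h1 := hg.b1 x
      have h2 := mul_le_mul_of_nonneg_left (hg.b0 x) (norm_nonneg w)
      linarith)
    linarith [mul_nonneg hC40 hIE]
  · refine (LT_lip hc hC40 hg.cont hg.b0 hz hz').trans ?_
    apply mul_le_mul_of_nonneg_right _ (norm_nonneg _)
    have := mul_nonneg hC40 hIE
    linarith
  · have hsum : W.LT k z = W.LT (fun x => (hcut a x : ℂ) * k x) z + W.LT t z := by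
      have h1 := LT_add' (C := C4) hc hg.cont ht.cont hg.b0 ht.b0 hz
      rw [← h1]
      congr 1
      funext x
      simp only [htdef]
      push_cast
      ring
    have e1 : W.LT (fun x => (hcut a x : ℂ) * k x) z - W.LT k z = -W.LT t z := by
      rw [hsum]
      ring
    have e2 : ‖W.LT (fun x => (hcut a x : ℂ) * k x) z - W.LT k z‖ = ‖W.LT t z‖ := by rw [e1, norm_neg]
    show ‖W.LT (fun x => (hcut a x : ℂ) * k x) z - W.LT k z‖ * (1 + |z.im| ^ 2) ≤ _
    rw [e2]
    have hloc : ∀ x, |x| < a - 1 → t =ᶠ[𝓝 x] fun _ => 0 := by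
      intro x hx
      have h1 : ∀ᶠ y in 𝓝 x, |y| < a - 1 := continuous_abs.continuousAt.eventually_lt_const hx
      filter_upwards [h1] with y hy
      simp only [htdef]
      rw [hcut_one hy.le]
      simp
    have h0 : ∀ x, |x| < a - 1 → t x = 0 := fun x hx => (hloc x hx).eq_of_nhds
    have h2 : ∀ x, |x| < a - 1 → deriv (deriv t) x = 0 := fun x hx => by
      have h3 : deriv t =ᶠ[𝓝 x] deriv fun _ => (0 : ℂ) := (hloc x hx).deriv
      rw [h3.deriv_eq]
      simp
    have f0 := LT_far hc hC40 ht.b0 h0 hz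
    have f2 := LT_far hc hC40 ht.b2 h2 hz
    have d1 : W.LT (deriv t) z = -(z * W.LT t z) := LT_dv hc ht.hd ht.smooth1.continuous ht.b0 ht.b1 hz
    have d2 : W.LT (deriv (deriv t)) z = -(z * W.LT (deriv t) z) :=
      LT_dv hc ht.hd1 (contDiff_infty_iff_deriv.mp ht.smooth1).2.continuous ht.b1 ht.b2 hz
    have e3 : ‖W.LT (deriv (deriv t)) z‖ = |z.im| ^ 2 * ‖W.LT t z‖ := by
      have hzn : ‖z‖ = |z.im| := by
        have : z = z.im * I := by
          apply Complex.ext
          · simp [hz]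
          · simp
        rw [this, norm_mul, Complex.norm_I, mul_one, Complex.norm_real, Real.norm_eq_abs]
        simp
      rw [d2, d1, norm_neg, norm_mul, norm_neg, norm_mul, hzn]
      ring
    rw [e3] at f2
    have e4 : c / 2 * Real.exp (2 * (a - 1)) = c / 2 * Real.exp (-2) * Real.exp (2 * a) := by
      rw [mul_assoc, ← Real.exp_add]
      congr 2
      ring
    rw [e4] at f0 f2
    have hX : 0 ≤ N * Real.exp (-(c / 2 * Real.exp (-2) * Real.exp (2 * a))) := by positivity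
    have hX' : 0 ≤ C4 * (2 / c) * IE (c / 2) * Real.exp (-(c / 2 * Real.exp (-2) * Real.exp (2 * a))) :=
      mul_nonneg hLp (Real.exp_pos _).le
    linarith

end Pool.Agent.Helper61.GR
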