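import Pool.Agent.Helper61.GR.Sd

set_option autoImplicit false

/-!
# Division of functions of doubly exponential decay
-/

namespace Pool.Agent.Helper61.GR

open Complex Filter Topology Set MeasureTheory
open Pool.Agent.Helper61.W Pool.Agent.Helper61.W.GS
open scoped ComplexConjugate ContDiff

variable {c C : ℝ} {f g : ℝ → ℂ}

lemma tail_int (hc : 0 < c) (hC : 0 ≤ C) (h : ∀ x, ‖f x‖ ≤ C * EE c x) {s : Set ℝ} (hs : MeasurableSet s) {r : ℝ}
    (hr : ∀ y ∈ s, r ≤ |y|) : ‖∫ y in s, f y‖ ≤ C * IE (c / 2) * Real.exp (-(c / 2 * Real.exp (2 * r))) := by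
  have h1 : ‖∫ y in s, f y‖ ≤ ∫ y in s, C * (Real.exp (-(c / 2 * Real.exp (2 * r))) * EE (c / 2) y) := by
    refine norm_integral_le_of_norm_le (((EE_int (half_pos hc)).const_mul _).const_mul C).integrableOn ?_
    rw [ae_restrict_iff' hs]
    refine Eventually.of_forall fun y hy => (h y).trans ?_
    exact mul_le_mul_of_nonneg_left (EE_tail hc (hr y hy)) hC
  refine h1.trans ?_
  have h2 : ∫ y in s, C * (Real.exp (-(c / 2 * Real.exp (2 * r))) * EE (c / 2) y) ≤
      ∫ y, C * (Real.exp (-(c / 2 * Real.exp (2 * r))) * EE (c / 2) y) := by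
    refine setIntegral_le_integral (((EE_int (half_pos hc)).const_mul _).const_mul C) ?_
    refine Eventually.of_forall fun y => ?_
    have := (EE_pos (c / 2) y).le
    positivity
  refine h2.trans (le_of_eq ?_)
  rw [integral_const_mul, integral_const_mul]
  unfold IE
  ring

/-- division -/
theorem SB_div (hc : 0 < c) (h : SB c C f) {w : ℂ} (hw : w.re = 0) (h0 : W.LT f w = 0) :
    ∃ (k : ℝ → ℂ) (C' : ℝ), SB (c / 2) C' k ∧ (∀ x, deriv k x = -(w * k x) - f x) ∧
      ∀ z : ℂ, z.re = 0 → W.LT f z = (z - w) * W.LT k z := by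
  have hC := h.C_nonneg
  set F : ℝ → ℂ := fun y => f y * cexp (w * y) with hF
  have hFc : Continuous F := by
    have := h.cont
    fun_prop
  have hFb : ∀ x, ‖F x‖ ≤ C * EE c x := by
    intro x
    rw [hF]
    simp only
    rw [norm_mul, norm_cexp_line hw, mul_one]
    exact h.b0 x
  have hFi : Integrable F := int_of_bound hc hFc hFb
  set J : ℝ → ℂ := fun x => ∫ y in Iic x, F y with hJ
  have hJd : ∀ x, HasDerivAt J (F x) x := by
    intro x
    have e : J = fun x => (∫ y in Iic (0 : ℝ), F y) + ∫ y in (0 : ℝ)..x, F y := by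
      funext t
      rw [← intervalIntegral.integral_Iic_sub_Iic hFi.integrableOn hFi.integrableOn]
      ring
    rw [e]
    have h1 : HasDerivAt (fun x => ∫ y in (0 : ℝ)..x, F y) (F x) x :=
      intervalIntegral.integral_hasDerivAt_right (hFc.intervalIntegrable _ _)
        hFc.aestronglyMeasurable.stronglyMeasurableAtFilter hFc.continuousAt
    exact h1.const_add _
  have htot : ∫ y, F y = 0 := h0
  have hJb : ∀ x, ‖J x‖ ≤ C * IE (c / 2) * EE (c / 2) x := by
    intro x
    rcases le_total x 0 with hx | hx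
    · have h1 := tail_int hc hC hFb (s := Iic x) measurableSet_Iic (r := |x|) (fun y hy => by
        rw [mem_Iic] at hy
        rw [abs_of_nonpos hx, abs_of_nonpos (hy.trans hx)]
        linarith)
      exact h1
    · have e : J x = -∫ y in Ioi x, F y := by
        have h2 := intervalIntegral.integral_Iic_add_Ioi (b := x) hFi.integrableOn hFi.integrableOn
        rw [htot] at h2
        exact eq_neg_of_add_eq_zero_left h2
      rw [e, norm_neg]
      have h1 := tail_int hc hC hFb (s := Ioi x) measurableSet_Ioi (r := |x|) (fun y hy => by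
        rw [mem_Ioi] at hy
        rw [abs_of_nonneg hx, abs_of_nonneg (hx.trans hy.le)]
        linarith)
      exact h1
  have hFs : ContDiff ℝ ∞ F := by
    refine h.smooth.mul ?_
    exact (contDiff_const.mul Complex.ofRealCLM.contDiff).cexp
  have hJs : ContDiff ℝ ∞ J := by
    rw [contDiff_infty_iff_deriv]
    refine ⟨fun x => (hJd x).differentiableAt, ?_⟩
    have : deriv J = F := funext fun x => (hJd x).deriv
    rw [this]
    exact hFs
  set k : ℝ → ℂ := fun x => -(cexp (-w * x) * J x) with hk
  have hks : ContDiff ℝ ∞ k := by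
    exact (((contDiff_const.mul Complex.ofRealCLM.contDiff).cexp).mul hJs).neg
  have hkd : ∀ x, HasDerivAt k (-(w * k x) - f x) x := by
    intro x
    have h1 : HasDerivAt (fun x : ℝ => cexp (-w * x)) (-w * cexp (-w * x)) x := by
      have h2 : HasDerivAt (fun x : ℝ => -w * (x : ℂ)) (-w) x := by
        have := (Complex.ofRealCLM.hasDerivAt (x := x)).const_mul (-w)
        simpa using this
      refine h2.cexp.congr_deriv ?_
      ring
    refine (h1.mul (hJd x)).neg.congr_deriv ?_
    have e : cexp (-w * x) * (f x * cexp (w * x)) = f x := by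
      have e2 : cexp (-w * x) * cexp (w * x) = 1 := by
        rw [← Complex.exp_add]
        have : -w * (x : ℂ) + w * x = 0 := by ring
        rw [this, Complex.exp_zero]
      linear_combination f x * e2
    simp only [hk, hF]
    linear_combination -e
  have hkb : ∀ x, ‖k x‖ ≤ C * IE (c / 2) * EE (c / 2) x := by
    intro x
    simp only [hk]
    rw [norm_neg, norm_mul, norm_cexp_line (by simp [hw]), one_mul]
    exact hJb x
  have hfb : ∀ x, C * EE c x ≤ C * EE (c / 2) x := fun x =>
    mul_le_mul_of_nonneg_left (EE_anti (by linarith) x) hC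
  have hd1 : ∀ x, deriv k x = -(w * k x) - f x := fun x => (hkd x).deriv
  set C1 : ℝ := C * IE (c / 2) with hC1
  have hC10 : 0 ≤ C1 := mul_nonneg hC (IE_nonneg _)
  set C2 : ℝ := ‖w‖ * C1 + C with hC2
  have hC20 : 0 ≤ C2 := by positivity
  have hkb1 : ∀ x, ‖deriv k x‖ ≤ C2 * EE (c / 2) x := by
    intro x
    rw [hd1]
    refine (norm_sub_le _ _).trans ?_
    rw [norm_neg, norm_mul]
    have h1 := mul_le_mul_of_nonneg_left (hkb x) (norm_nonneg w)
    have h2 := (h.b0 x).trans (hfb x)
    rw [hC2]
    linarith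
  have hd2 : ∀ x, deriv (deriv k) x = -(w * deriv k x) - deriv f x := by
    intro x
    have e : deriv k = fun x => -(w * k x) - f x := funext hd1
    rw [e]
    have h1 : HasDerivAt (fun x => -(w * k x) - f x) (-(w * (-(w * k x) - f x)) - deriv f x) x :=
      ((hkd x).const_mul w).neg.sub (h.hd x)
    exact h1.deriv
  have hkb2 : ∀ x, ‖deriv (deriv k) x‖ ≤ (‖w‖ * C2 + C) * EE (c / 2) x := by
    intro x
    rw [hd2]
    refine (norm_sub_le _ _).trans ?_
    rw [norm_neg, norm_mul]
    have h1 := mul_le_mul_of_nonneg_left (hkb1 x) (norm_nonneg w)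
    have h2 := (h.b1 x).trans (hfb x)
    linarith
  have hE := fun x => (EE_pos (c / 2) x).le
  refine ⟨k, C1 + C2 + (‖w‖ * C2 + C), ⟨hks, fun x => (hkb x).trans ?_, fun x => (hkb1 x).trans ?_,
    fun x => (hkb2 x).trans ?_⟩, hd1, fun z hz => ?_⟩
  · refine mul_le_mul_of_nonneg_right ?_ (hE x)
    have : 0 ≤ C2 + (‖w‖ * C2 + C) := by positivity
    linarith
  · refine mul_le_mul_of_nonneg_right ?_ (hE x)
    have : 0 ≤ C1 + (‖w‖ * C2 + C) := by positivity
    linarith
  · refine mul_le_mul_of_nonneg_right ?_ (hE x)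
    have : 0 ≤ C1 + C2 := by positivity
    linarith
  · have hc2 := half_pos hc
    have h1 : W.LT (deriv k) z = -(z * W.LT k z) := by
      refine LT_dv (C := C1 + C2) hc2 (fun x => hkd x |>.differentiableAt.hasDerivAt) ?_ (fun x => (hkb x).trans ?_)
        (fun x => (hkb1 x).trans ?_) hz
      · exact (contDiff_infty_iff_deriv.mp hks).2.continuous
      · exact mul_le_mul_of_nonneg_right (by linarith) (hE x)
      · exact mul_le_mul_of_nonneg_right (by linarith) (hE x)
    have h2 : W.LT (deriv k) z = -(w * W.LT k z) - W.LT f z := by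
      have e : deriv k = fun x => -(w * k x) - f x := funext hd1
      rw [e]
      unfold W.LT
      have i1 := int_exp hc2 hks.continuous hkb hz
      have i2 := int_exp hc h.cont h.b0 hz
      have i3 : Integrable fun x : ℝ => -(w * (k x * cexp (z * x))) := (i1.const_mul w).neg
      rw [← integral_const_mul, ← integral_neg, ← integral_sub i3 i2]
      congr 1
      funext x
      ring
    rw [h1] at h2
    linear_combination h2

end Pool.Agent.Helper61.GR
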