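import Pool.Agent.Helper61.GA.Mt

set_option autoImplicit false

/-!
# Rate of convergence, abstract form
-/

namespace Pool.Agent.Helper61.GR

open Complex Filter Topology Set MeasureTheory
open Pool.Agent.Helper61.W Pool.Agent.Helper61.W.GS
open Pool.Agent.Helper61.GA
open scoped ComplexConjugate ContDiff

variable {D : Dat} {a : ℝ}

/-- a good test function for the zero `ρ0` -/
def TFam (D : Dat) (ρ0 : D.ι) (M e a : ℝ) : Prop :=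
  ∃ g : Ts a, 1 ≤ ‖W.LT g (D.z ρ0)‖ ∧ ‖toL a g‖ ≤ M ∧ ‖toL a (Ao a (D.z ρ0) g)‖ ≤ M ∧
    ∀ ρ : D.ι, ρ ≠ ρ0 → ‖W.LT g (D.z ρ)‖ * (1 + |(D.z ρ).im| ^ 2) ≤ e

/-- the basic sum -/
noncomputable def SD (D : Dat) : ℝ := ∑' ρ : D.ι, D.m ρ / (1 + |(D.z ρ).im|) ^ (2 : ℝ)

lemma SD_nonneg : 0 ≤ SD D := tsum_nonneg fun ρ => div_nonneg (D.m_nonneg ρ) (by positivity)

/-- the sum over the other zeros -/
lemma other_sum {ρ0 : D.ι} {e : ℝ} {g : Ts a}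
    (hg : ∀ ρ : D.ι, ρ ≠ ρ0 → ‖W.LT g (D.z ρ)‖ * (1 + |(D.z ρ).im| ^ 2) ≤ e) (ρ : D.ι) (hρ : ρ ≠ ρ0) :
    D.m ρ * (1 + |(D.z ρ).im|) ^ 2 * ‖W.LT g (D.z ρ)‖ ^ 2 ≤ 4 * e ^ 2 * (D.m ρ / (1 + |(D.z ρ).im|) ^ (2 : ℝ)) := by
  have h1 := hg ρ hρ
  set y := |(D.z ρ).im| with hy
  have hy0 : 0 ≤ y := abs_nonneg _
  have e2 : (1 + y) ^ (2 : ℝ) = (1 + y) ^ 2 := by norm_cast
  have hm := D.m_nonneg ρ
  rw [e2, ← mul_div_assoc, le_div_iff₀ (by positivity)]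
  have h2 : (‖W.LT g (D.z ρ)‖ * (1 + y ^ 2)) ^ 2 ≤ e ^ 2 := by
    gcongr
  have h3 : (1 + y) ^ 4 ≤ 4 * (1 + y ^ 2) ^ 2 := by
    have h4 : (1 + y) ^ 2 ≤ 2 * (1 + y ^ 2) := by nlinarith [sq_nonneg (1 - y)]
    calc (1 + y) ^ 4 = ((1 + y) ^ 2) ^ 2 := by ring
      _ ≤ (2 * (1 + y ^ 2)) ^ 2 := by gcongr
      _ = _ := by ring
  calc D.m ρ * (1 + y) ^ 2 * ‖W.LT g (D.z ρ)‖ ^ 2 * (1 + y) ^ 2 =
        D.m ρ * (‖W.LT g (D.z ρ)‖ ^ 2 * (1 + y) ^ 4) := by ring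
    _ ≤ D.m ρ * (‖W.LT g (D.z ρ)‖ ^ 2 * (4 * (1 + y ^ 2) ^ 2)) := by gcongr
    _ = D.m ρ * (4 * (‖W.LT g (D.z ρ)‖ * (1 + y ^ 2)) ^ 2) := by ring
    _ ≤ D.m ρ * (4 * e ^ 2) := by gcongr
    _ = _ := by ring

lemma shift_bound {y0 w y : ℝ} (hw : |w - y0| ≤ 1) : |y - w| ≤ (2 + |y0|) * (1 + |y|) := by
  have h1 : |y - w| ≤ |y| + |y0| + 1 := by
    have e : y - w = y - y0 - (w - y0) := by ring
    rw [e]
    have h2 := abs_sub (y - y0) (w - y0)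
    have h3 := abs_sub y y0
    linarith
  nlinarith [abs_nonneg y, abs_nonneg y0, mul_nonneg (abs_nonneg y) (abs_nonneg y0)]

/-- a tsum with one exceptional term -/
lemma tsum_except {ι : Type} {f b : ι → ℝ} (ρ0 : ι) (hb : Summable b) (hb0 : ∀ ρ, 0 ≤ b ρ)
    (h : ∀ ρ, ρ ≠ ρ0 → |f ρ| ≤ b ρ) : Summable f ∧ |(∑' ρ, f ρ) - f ρ0| ≤ ∑' ρ, b ρ := by
  classical
  have h1 : ∀ ρ, ‖f ρ - (if ρ = ρ0 then f ρ0 else 0)‖ ≤ b ρ := by
    intro ρ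
    by_cases hρ : ρ = ρ0
    · subst hρ
      simp [hb0]
    · rw [if_neg hρ, sub_zero]
      exact h ρ hρ
  have h2 : HasSum (fun ρ => if ρ = ρ0 then f ρ0 else 0) (f ρ0) := by
    have := hasSum_ite_eq ρ0 (f ρ0)
    exact this
  have h3 : Summable fun ρ => f ρ - (if ρ = ρ0 then f ρ0 else 0) := Summable.of_norm_bounded hb h1
  have h4 : Summable f := by
    refine (h3.add h2.summable).congr fun ρ => ?_
    ring
  refine ⟨h4, ?_⟩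
  rw [← h2.tsum_eq, ← h4.tsum_sub h2.summable, ← Real.norm_eq_abs]
  exact tsum_of_norm_bounded hb.hasSum h1

/-- the inverse on the line -/
lemma inv_line (ha : 0 < a) {w : ℂ} (hw : w.re = 0) (k : Ts a) :
    ‖toL a k‖ ≤ 2 * a * ‖toL a (Ao a w k)‖ := by
  have h0 : ∀ x, ‖(k : ℝ → ℂ) x‖ ≤ Real.sqrt (2 * a) * ‖toL a (Ao a w k)‖ := by
    intro x
    have := point_bound ha w k x
    rw [hw, abs_zero, zero_mul, Real.exp_zero, one_mul, mul_one] at this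
    exact this
  have h1 : ‖toL a k‖ ^ 2 ≤ (2 * a * ‖toL a (Ao a w k)‖) ^ 2 := by
    rw [norm_toL]
    have e1 : ∫ x, ‖(k : ℝ → ℂ) x‖ ^ 2 = ∫ x in Icc (-a) a, ‖(k : ℝ → ℂ) x‖ ^ 2 := by
      symm
      apply setIntegral_eq_integral_of_forall_compl_eq_zero
      intro x hx
      rw [k.2.2 x (by
        rw [mem_Icc, ← abs_le, not_le] at hx
        exact hx)]
      simp
    have e2 : ‖∫ x in Icc (-a) a, ‖(k : ℝ → ℂ) x‖ ^ 2‖ ≤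
        (Real.sqrt (2 * a) * ‖toL a (Ao a w k)‖) ^ 2 * (volume : Measure ℝ).real (Icc (-a) a) :=
      norm_setIntegral_le_of_norm_le_const (by simp) (fun x _ => by
        rw [Real.norm_of_nonneg (by positivity)]
        exact pow_le_pow_left₀ (norm_nonneg _) (h0 x) 2)
    have e4 : (volume : Measure ℝ).real (Icc (-a) a) = 2 * a := by
      rw [Real.volume_real_Icc_of_le (by linarith)]
      ring
    rw [e4] at e2
    rw [e1]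
    refine (le_abs_self _).trans (e2.trans (le_of_eq ?_))
    rw [mul_pow, Real.sq_sqrt (by positivity)]
    ring
  exact (pow_le_pow_iff_left₀ (norm_nonneg _) (by positivity) (by norm_num)).mp h1

lemma arith1 {δ M B R m0 L S1 S2 low : ℝ} (hδ : 0 < δ) (hδ1 : δ ≤ 1) (hB : 0 ≤ B) (hR0 : 0 ≤ R)
    (hml : 1 ≤ m0 * L ^ 2)
    (k1 : |S1 - m0 * -δ * L ^ 2| ≤ R) (k2 : |S2 - m0 * (-δ) ^ 2 * L ^ 2| ≤ R)
    (h4 : |S1| ≤ 2 / (4 * δ) * S2 + low * (2 * M * M)) (hl : low ≤ B * R) :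
    δ ^ 2 ≤ (4 + 4 * B * M ^ 2) * R := by
  have hM : 0 ≤ 2 * M * M := by nlinarith [sq_nonneg M]
  rw [abs_le] at k1 k2
  have h6 : -|S1| ≤ S1 := neg_abs_le S1
  have h7 : m0 * L ^ 2 * δ - R ≤ |S1| := by linarith [k1.2]
  have h8 : S2 ≤ m0 * L ^ 2 * δ ^ 2 + R := by linarith [k2.2]
  have h9 : 2 / (4 * δ) * S2 ≤ 2 / (4 * δ) * (m0 * L ^ 2 * δ ^ 2 + R) := mul_le_mul_of_nonneg_left h8 (by positivity)
  have h10 : 2 / (4 * δ) * (m0 * L ^ 2 * δ ^ 2 + R) = m0 * L ^ 2 * δ / 2 + R / (2 * δ) := by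
    field_simp
    ring
  have h11 : low * (2 * M * M) ≤ B * R * (2 * M * M) := mul_le_mul_of_nonneg_right hl hM
  have h12 : m0 * L ^ 2 * δ / 2 ≤ R + R / (2 * δ) + B * R * (2 * M * M) := by linarith
  have h12' : 1 * δ ≤ m0 * L ^ 2 * δ := mul_le_mul_of_nonneg_right hml hδ.le
  have h13 : δ / 2 ≤ R + R / (2 * δ) + B * R * (2 * M * M) := by linarith
  have h14 : δ / 2 * (2 * δ) ≤ (R + R / (2 * δ) + B * R * (2 * M * M)) * (2 * δ) :=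
    mul_le_mul_of_nonneg_right h13 (by positivity)
  have h15 : (R + R / (2 * δ) + B * R * (2 * M * M)) * (2 * δ) =
      2 * δ * R + R + δ * (4 * B * M ^ 2 * R) := by
    field_simp
    ring
  have h16 : 0 ≤ 4 * B * M ^ 2 * R := by positivity
  have h17 : δ * R ≤ 1 * R := mul_le_mul_of_nonneg_right hδ1 hR0
  have h18 : δ * (4 * B * M ^ 2 * R) ≤ 1 * (4 * B * M ^ 2 * R) := mul_le_mul_of_nonneg_right hδ1 h16
  have h19 : δ / 2 * (2 * δ) = δ ^ 2 := by ring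
  rw [h15, h19] at h14
  linarith

variable (hR : ∀ ρ : D.ι, (D.z ρ).re = 0)

include hR

omit hR in
/-- the two weighted sums over the other zeros -/
lemma rest_le {ρ0 : D.ι} {e : ℝ} {g : Ts a} {w : ℝ} (hw : |w - (D.z ρ0).im| ≤ 1)
    (hg : ∀ ρ : D.ι, ρ ≠ ρ0 → ‖W.LT g (D.z ρ)‖ * (1 + |(D.z ρ).im| ^ 2) ≤ e) (ρ : D.ι) (hρ : ρ ≠ ρ0) :
    |D.m ρ * ((D.z ρ).im - w) * ‖W.LT g (D.z ρ)‖ ^ 2| ≤
      (2 + |(D.z ρ0).im|) ^ 2 * (4 * e ^ 2 * (D.m ρ / (1 + |(D.z ρ).im|) ^ (2 : ℝ))) ∧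
    |D.m ρ * ((D.z ρ).im - w) ^ 2 * ‖W.LT g (D.z ρ)‖ ^ 2| ≤
      (2 + |(D.z ρ0).im|) ^ 2 * (4 * e ^ 2 * (D.m ρ / (1 + |(D.z ρ).im|) ^ (2 : ℝ))) := by
  have h1 := other_sum hg ρ hρ
  have h2 := shift_bound (y0 := (D.z ρ0).im) (w := w) (y := (D.z ρ).im) hw
  set y := (D.z ρ).im
  set Y := |(D.z ρ0).im| with hY
  have hY0 : 0 ≤ Y := abs_nonneg _
  have hm := D.m_nonneg ρ
  have h3 : |y - w| ^ 2 ≤ (2 + Y) ^ 2 * (1 + |y|) ^ 2 := by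
    rw [← mul_pow]
    exact pow_le_pow_left₀ (abs_nonneg _) h2 2
  have h4 : |y - w| ≤ (2 + Y) ^ 2 * (1 + |y|) ^ 2 := by
    have h5 : 1 ≤ (2 + Y) * (1 + |y|) := by nlinarith [abs_nonneg y, mul_nonneg hY0 (abs_nonneg y)]
    rw [← mul_pow]
    refine h2.trans ?_
    nlinarith
  have hL : 0 ≤ ‖W.LT g (D.z ρ)‖ ^ 2 := sq_nonneg _
  constructor
  · rw [abs_mul, abs_mul, abs_of_nonneg hm, abs_of_nonneg hL]
    calc D.m ρ * |y - w| * ‖W.LT g (D.z ρ)‖ ^ 2 ≤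
        D.m ρ * ((2 + Y) ^ 2 * (1 + |y|) ^ 2) * ‖W.LT g (D.z ρ)‖ ^ 2 := by gcongr
      _ = (2 + Y) ^ 2 * (D.m ρ * (1 + |y|) ^ 2 * ‖W.LT g (D.z ρ)‖ ^ 2) := by ring
      _ ≤ _ := by gcongr
  · rw [abs_mul, abs_mul, abs_of_nonneg hm, abs_of_nonneg hL, abs_pow]
    calc D.m ρ * |y - w| ^ 2 * ‖W.LT g (D.z ρ)‖ ^ 2 ≤
        D.m ρ * ((2 + Y) ^ 2 * (1 + |y|) ^ 2) * ‖W.LT g (D.z ρ)‖ ^ 2 := by gcongr
      _ = (2 + Y) ^ 2 * (D.m ρ * (1 + |y|) ^ 2 * ‖W.LT g (D.z ρ)‖ ^ 2) := by ring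
      _ ≤ _ := by gcongr

omit hR in
lemma rest_tsum {ρ0 : D.ι} {e : ℝ} :
    ∑' ρ : D.ι, (2 + |(D.z ρ0).im|) ^ 2 * (4 * e ^ 2 * (D.m ρ / (1 + |(D.z ρ).im|) ^ (2 : ℝ))) =
      (2 + |(D.z ρ0).im|) ^ 2 * (4 * e ^ 2 * SD D) := by
  rw [tsum_mul_left, tsum_mul_left]
  rfl

/-- the lowest eigenvalue is small -/
lemma low_small (ha : 0 < a) {ρ0 : D.ι} {e : ℝ} {g : Ts a} (h1 : 1 ≤ ‖W.LT g (D.z ρ0)‖)
    (hg : ∀ ρ : D.ι, ρ ≠ ρ0 → ‖W.LT g (D.z ρ)‖ * (1 + |(D.z ρ).im| ^ 2) ≤ e) :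
    D.low a ≤ (2 * a) ^ 3 * ((2 + |(D.z ρ0).im|) ^ 2 * (4 * e ^ 2 * SD D)) := by
  have hlow := low_nonneg hR ha
  have h2 := low_le (D := D) ha (Ao a (D.z ρ0) g)
  have hco : (Ao a (D.z ρ0) g : ℝ → ℂ) = Aw (D.z ρ0) g := rfl
  rw [hco, Wf_Aw2 hR (Ts.tf g.2) (hR ρ0)] at h2
  have h3 := tsum_except (f := fun ρ : D.ι => D.m ρ * ((D.z ρ).im - (D.z ρ0).im) ^ 2 * ‖W.LT g (D.z ρ)‖ ^ 2) ρ0
    ((D.sum.mul_left (4 * e ^ 2)).mul_left ((2 + |(D.z ρ0).im|) ^ 2))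
    (fun ρ => by
      have := D.m_nonneg ρ
      positivity)
    (fun ρ hρ => (rest_le (by simp) hg ρ hρ).2)
  rw [rest_tsum] at h3
  simp only [sub_self, ne_eq, OfNat.ofNat_ne_zero, not_false_eq_true, zero_pow, mul_zero, zero_mul, sub_zero] at h3
  have h4 := (le_abs_self _).trans h3.2
  have h5 := h2.trans h4
  have h6 : 1 ≤ Real.sqrt (2 * a) * (2 * a * ‖toL a (Ao a (D.z ρ0) g)‖) := by
    have e1 := ev_bound ha (z := D.z ρ0) (R := 0) (by rw [hR ρ0, abs_zero]) (toL a g)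
    rw [ev_toL, zero_mul, Real.exp_zero, mul_one] at e1
    exact (h1.trans e1).trans (mul_le_mul_of_nonneg_left (inv_line ha (hR ρ0) g) (Real.sqrt_nonneg _))
  have h7 : 1 ≤ (2 * a) ^ 3 * ‖toL a (Ao a (D.z ρ0) g)‖ ^ 2 := by
    have h8 := one_le_pow₀ h6 (n := 2)
    rw [mul_pow, mul_pow, Real.sq_sqrt (by positivity)] at h8
    linarith
  calc D.low a = D.low a * 1 := (mul_one _).symm
    _ ≤ D.low a * ((2 * a) ^ 3 * ‖toL a (Ao a (D.z ρ0) g)‖ ^ 2) := mul_le_mul_of_nonneg_left h7 hlow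
    _ = (2 * a) ^ 3 * (D.low a * ‖toL a (Ao a (D.z ρ0) g)‖ ^ 2) := by ring
    _ ≤ _ := mul_le_mul_of_nonneg_left h5 (by positivity)

/-- the main estimate -/
theorem main_est (ha : 0 < a) {ρ0 : D.ι} {M e δ : ℝ} (hM : 0 ≤ M) (hδ : 0 < δ) (hδ1 : δ ≤ 1)
    (hT : TFam D ρ0 M e a) {φ : HL} (hφ : φ ∈ D.E ha) (hz : ∀ z : ℂ, ‖z - D.z ρ0‖ ≤ 5 * δ → ev a z φ ≠ 0) :
    δ ^ 2 ≤ (4 + 4 * ((2 * a) ^ 3) * M ^ 2) * ((2 + |(D.z ρ0).im|) ^ 2 * (4 * e ^ 2 * SD D)) := by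
  obtain ⟨g, hg1, hg2, hg3, hg4⟩ := hT
  set w0 : ℂ := D.z ρ0 + δ * I with hw0
  have hw0re : w0.re = 0 := by simp [hw0, hR ρ0]
  have hw0im : w0.im = (D.z ρ0).im + δ := by simp [hw0]
  set R : ℝ := (2 + |(D.z ρ0).im|) ^ 2 * (4 * e ^ 2 * SD D) with hRdef
  have hR0 : 0 ≤ R := by
    have := SD_nonneg (D := D)
    positivity
  have hball : ∀ z ∈ Metric.closedBall w0 (4 * δ), ev a z φ ≠ 0 := by
    intro z hz'
    apply hz
    rw [Metric.mem_closedBall, dist_eq_norm] at hz'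
    have e1 : z - D.z ρ0 = (z - w0) + (δ : ℝ) * I := by
      rw [hw0]
      ring
    rw [e1]
    refine (norm_add_le _ _).trans ?_
    rw [norm_mul, Complex.norm_I, mul_one, Complex.norm_real, Real.norm_of_nonneg hδ.le]
    linarith
  have h2 := star ha hφ hw0re (by positivity : 0 < 4 * δ) hball g
  set f : Ts a := Ao a w0 g with hf
  have hfc : (f : ℝ → ℂ) = Aw w0 g := rfl
  have hlow := low_nonneg hR ha
  have hlows := low_small hR ha hg1 hg4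
  rw [form_self (D := D)] at h2
  have e1 : (D.form ha).B g f = D.Wf g f - (D.low a : ℂ) * inner ℂ (toL a f) (toL a g) := rfl
  have hfn : ‖toL a f‖ ≤ 2 * M := by
    have e2 : f = Ao a (D.z ρ0) g + (D.z ρ0 - w0) • g := Ao_eq w0 (D.z ρ0) g
    rw [e2, map_add, map_smul]
    refine (norm_add_le _ _).trans ?_
    rw [norm_smul]
    have e3 : ‖D.z ρ0 - w0‖ = δ := by
      have : D.z ρ0 - w0 = -((δ : ℂ) * I) := by rw [hw0]; ring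
      rw [this, norm_neg, norm_mul, Complex.norm_I, mul_one, Complex.norm_real, Real.norm_of_nonneg hδ.le]
    rw [e3]
    have := mul_le_mul hδ1 hg2 (norm_nonneg _) zero_le_one
    linarith
  have h3 : ‖D.Wf g f‖ ≤ ‖(D.form ha).B g f‖ + D.low a * (2 * M * M) := by
    rw [e1]
    have h4 : ‖D.Wf g f‖ ≤ ‖D.Wf g f - (D.low a : ℂ) * inner ℂ (toL a f) (toL a g)‖ +
        ‖(D.low a : ℂ) * inner ℂ (toL a f) (toL a g)‖ := by
      have := norm_add_le (D.Wf g f - (D.low a : ℂ) * inner ℂ (toL a f) (toL a g))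
        ((D.low a : ℂ) * inner ℂ (toL a f) (toL a g))
      rwa [sub_add_cancel] at this
    have h5 : ‖(D.low a : ℂ) * inner ℂ (toL a f) (toL a g)‖ ≤ D.low a * (2 * M * M) := by
      rw [norm_mul, Complex.norm_real, Real.norm_of_nonneg hlow]
      apply mul_le_mul_of_nonneg_left _ hlow
      exact (norm_inner_le_norm _ _).trans (mul_le_mul hfn hg2 (norm_nonneg _) (by positivity))
    linarith
  have h4 : ‖D.Wf g f‖ ≤ 2 / (4 * δ) * (D.Wf f f).re + D.low a * (2 * M * M) := by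
    have h5 : 2 / (4 * δ) * ((D.Wf f f).re - D.low a * ‖toL a f‖ ^ 2) ≤ 2 / (4 * δ) * (D.Wf f f).re := by
      apply mul_le_mul_of_nonneg_left _ (by positivity)
      have := mul_nonneg hlow (sq_nonneg ‖toL a f‖)
      linarith
    linarith
  rw [hfc, Wf_Aw hR (Ts.tf g.2) hw0re, Wf_Aw2 hR (Ts.tf g.2) hw0re] at h4
  have hshift : |w0.im - (D.z ρ0).im| ≤ 1 := by
    rw [hw0im, add_sub_cancel_left, abs_of_pos hδ]
    exact hδ1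
  have hsb := (D.sum.mul_left (4 * e ^ 2)).mul_left ((2 + |(D.z ρ0).im|) ^ 2)
  have hsp : ∀ ρ : D.ι, 0 ≤ (2 + |(D.z ρ0).im|) ^ 2 * (4 * e ^ 2 * (D.m ρ / (1 + |(D.z ρ).im|) ^ (2 : ℝ))) := by
    intro ρ
    have := D.m_nonneg ρ
    positivity
  have k1 := tsum_except (f := fun ρ : D.ι => D.m ρ * ((D.z ρ).im - w0.im) * ‖W.LT g (D.z ρ)‖ ^ 2) ρ0 hsb hsp
    (fun ρ hρ => (rest_le hshift hg4 ρ hρ).1)
  have k2 := tsum_except (f := fun ρ : D.ι => D.m ρ * ((D.z ρ).im - w0.im) ^ 2 * ‖W.LT g (D.z ρ)‖ ^ 2) ρ0 hsb hsp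
    (fun ρ hρ => (rest_le hshift hg4 ρ hρ).2)
  rw [rest_tsum, ← hRdef] at k1 k2
  have k1' := k1.2
  have k2' := k2.2
  set S1 := ∑' ρ : D.ι, D.m ρ * ((D.z ρ).im - w0.im) * ‖W.LT g (D.z ρ)‖ ^ 2
  set S2 := ∑' ρ : D.ι, D.m ρ * ((D.z ρ).im - w0.im) ^ 2 * ‖W.LT g (D.z ρ)‖ ^ 2
  have e5 : (D.z ρ0).im - w0.im = -δ := by rw [hw0im]; ring
  rw [e5] at k1' k2'
  set L := ‖W.LT g (D.z ρ0)‖ with hL
  have hm1 := D.one_le ρ0
  set m0 := D.m ρ0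
  have hL1 : 1 ≤ L ^ 2 := one_le_pow₀ hg1
  have hml : 1 ≤ m0 * L ^ 2 := one_le_mul_of_one_le_of_one_le hm1 hL1
  exact arith1 hδ hδ1 (by positivity) hR0 hml k1' k2' h4 hlows

/-- doubly exponential convergence -/
theorem fast {ρ0 : D.ι} {M c A : ℝ} (hM : 0 ≤ M) (hc : 0 < c)
    (hT : ∀ a : ℝ, A ≤ a → TFam D ρ0 M (M * Real.exp (-(c * Real.exp (2 * a)))) a) :
    ∃ A' : ℝ, ∀ a : ℝ, A' ≤ a → ∀ ha : 0 < a, ∀ φ ∈ D.E ha,
      ∃ z : ℂ, ‖z - D.z ρ0‖ ≤ Real.exp (-(c / 2 * Real.exp (2 * a))) ∧ ev a z φ = 0 := by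
  set K : ℝ := (2 + |(D.z ρ0).im|) ^ 2 * (4 * M ^ 2 * SD D) with hK
  have hK0 : 0 ≤ K := by
    have := SD_nonneg (D := D)
    positivity
  have hlim : Tendsto (fun a : ℝ => (4 + 4 * ((2 * a) ^ 3) * M ^ 2) * K * Real.exp (-(c * a))) atTop (𝓝 0) := by
    have h1 : Tendsto (fun a : ℝ => c * a) atTop atTop := tendsto_id.const_mul_atTop hc
    have h2 := (Real.tendsto_pow_mul_exp_neg_atTop_nhds_zero 3).comp h1
    have h3 := (Real.tendsto_pow_mul_exp_neg_atTop_nhds_zero 0).comp h1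
    have h4 := (h3.const_mul (4 * K)).add (h2.const_mul (32 * M ^ 2 * K / c ^ 3))
    rw [mul_zero, mul_zero, add_zero] at h4
    refine h4.congr fun a => ?_
    simp only [Function.comp_apply]
    field_simp
    ring
  obtain ⟨A1, hA1⟩ := eventually_atTop.mp (hlim.eventually_lt_const (by norm_num : (0 : ℝ) < 1 / 25))
  refine ⟨max A A1, fun a haA ha φ hφ => ?_⟩
  by_contra hcon
  push Not at hcon
  set x : ℝ := Real.exp (-(c / 2 * Real.exp (2 * a))) with hx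
  have hx0 : 0 < x := Real.exp_pos _
  have hx1 : x ≤ 1 := by
    rw [hx]
    apply Real.exp_le_one_iff.mpr
    have : 0 < c / 2 * Real.exp (2 * a) := by positivity
    linarith
  have hxx : x ^ 2 = Real.exp (-(c * Real.exp (2 * a))) := by
    rw [hx, ← Real.exp_nat_mul]
    congr 1
    push_cast
    ring
  have h1 := main_est hR ha (M := M) (e := M * Real.exp (-(c * Real.exp (2 * a)))) (δ := x / 5) hM (by positivity)
    (by linarith) (hT a ((le_max_left _ _).trans haA)) hφ (fun z hz h0 => by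
      refine hcon z ?_ h0
      linarith)
  rw [← hxx] at h1
  have h2 : (2 + |(D.z ρ0).im|) ^ 2 * (4 * (M * x ^ 2) ^ 2 * SD D) = K * (x ^ 2 * x ^ 2) := by
    rw [hK]
    ring
  rw [h2] at h1
  have h3 : 1 / 25 ≤ (4 + 4 * ((2 * a) ^ 3) * M ^ 2) * K * x ^ 2 := by
    have hx2 : 0 < x ^ 2 := by positivity
    have h4 : 1 / 25 * x ^ 2 ≤ ((4 + 4 * ((2 * a) ^ 3) * M ^ 2) * K * x ^ 2) * x ^ 2 := by linarith
    exact le_of_mul_le_mul_right h4 hx2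
  have h4 : x ^ 2 ≤ Real.exp (-(c * a)) := by
    rw [hxx]
    apply Real.exp_le_exp.mpr
    have h5 : a ≤ Real.exp (2 * a) := by
      have := Real.add_one_le_exp (2 * a)
      linarith
    have := mul_le_mul_of_nonneg_left h5 hc.le
    linarith
  have h5 := hA1 a ((le_max_right _ _).trans haA)
  have h6 : (4 + 4 * ((2 * a) ^ 3) * M ^ 2) * K * x ^ 2 ≤ (4 + 4 * ((2 * a) ^ 3) * M ^ 2) * K * Real.exp (-(c * a)) :=
    mul_le_mul_of_nonneg_left h4 (by positivity)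
  linarith

end Pool.Agent.Helper61.GR
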