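import Pool.Agent.Helper61.GR.Fa

set_option autoImplicit false

/-!
# Convergence of the measures of the sum of squares
-/

namespace Pool.Agent.Helper61.GR

open Complex Filter Topology Set MeasureTheory
open Pool.Agent.Helper61.W Pool.Agent.Helper61.W.GS
open Pool.Agent.Helper61.GA
open scoped ComplexConjugate ContDiff

variable {D : Dat} {a : ℝ}

/-- a good test function at the point `w` of the line -/
def TW (D : Dat) (w : ℂ) (M e a : ℝ) : Prop :=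
  ∃ g : Ts a, 1 ≤ ‖W.LT g w‖ ∧ ‖toL a g‖ ≤ M ∧
    (∀ z : ℂ, z.re = 0 → ‖W.LT g z - W.LT g w‖ ≤ M * ‖z - w‖) ∧
    ∀ ρ : D.ι, D.z ρ ≠ w → ‖W.LT g (D.z ρ)‖ * (1 + |(D.z ρ).im| ^ 2) ≤ e

/-- the multiplicity of a point -/
noncomputable def mw (D : Dat) (w : ℂ) : ℝ := by
  classical exact ∑' ρ : D.ι, if D.z ρ = w then D.m ρ else 0

lemma except_fin (w : ℂ) (f : D.ι → ℝ) : Summable fun ρ : D.ι => (open Classical in if D.z ρ = w then f ρ else 0) := by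
  classical
  by_cases h : ∃ ρ, D.z ρ = w
  · obtain ⟨ρ0, h0⟩ := h
    have e : (fun ρ : D.ι => (if D.z ρ = w then f ρ else 0)) = fun ρ => if ρ = ρ0 then f ρ0 else 0 := by
      funext ρ
      by_cases hρ : ρ = ρ0
      · subst hρ
        simp [h0]
      · rw [if_neg hρ, if_neg]
        intro h1
        exact hρ (D.inj (h1.trans h0.symm))
    have h2 := (hasSum_ite_eq ρ0 (f ρ0)).summable
    convert h2 using 1
  · have e : (fun ρ : D.ι => (if D.z ρ = w then f ρ else 0)) = fun _ => (0 : ℝ) := by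
      funext ρ
      rw [if_neg]
      exact fun h1 => h ⟨ρ, h1⟩
    convert summable_zero using 1

/-- a tsum with exceptional terms -/
lemma tsum_exc {w : ℂ} {f b : D.ι → ℝ} {X : ℝ} (hb : Summable b) (hb0 : ∀ ρ, 0 ≤ b ρ)
    (h : ∀ ρ, D.z ρ ≠ w → |f ρ| ≤ b ρ) (hX : ∀ ρ, D.z ρ = w → f ρ = D.m ρ * X) :
    |(∑' ρ, f ρ) - mw D w * X| ≤ ∑' ρ, b ρ := by
  classical
  have e1 : mw D w * X = ∑' ρ : D.ι, (if D.z ρ = w then f ρ else 0) := by
    unfold mw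
    rw [← tsum_mul_right]
    refine tsum_congr fun ρ => ?_
    by_cases hρ : D.z ρ = w
    · rw [if_pos hρ, if_pos hρ, hX ρ hρ]
    · rw [if_neg hρ, if_neg hρ, zero_mul]
  have h1 : ∀ ρ, ‖f ρ - (if D.z ρ = w then f ρ else 0)‖ ≤ b ρ := by
    intro ρ
    by_cases hρ : D.z ρ = w
    · rw [if_pos hρ, sub_self, norm_zero]
      exact hb0 ρ
    · rw [if_neg hρ, sub_zero]
      exact h ρ hρ
  have h2 : Summable fun ρ : D.ι => (if D.z ρ = w then f ρ else 0) := by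
    have := except_fin (D := D) w f
    convert this using 1
  have h3 : Summable fun ρ => f ρ - (if D.z ρ = w then f ρ else 0) := Summable.of_norm_bounded hb h1
  have h4 : Summable f := by
    refine (h3.add h2).congr fun ρ => ?_
    ring
  rw [e1, ← h4.tsum_sub h2, ← Real.norm_eq_abs]
  exact tsum_of_norm_bounded hb.hasSum h1

/-- the two weighted bounds -/
lemma rest_w {w : ℂ} {e : ℝ} {g : Ts a}
    (hg : ∀ ρ : D.ι, D.z ρ ≠ w → ‖W.LT g (D.z ρ)‖ * (1 + |(D.z ρ).im| ^ 2) ≤ e) (ρ : D.ι) (hρ : D.z ρ ≠ w) :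
    |D.m ρ * ‖W.LT g (D.z ρ)‖ ^ 2| ≤
      (2 + |w.im|) ^ 2 * (4 * e ^ 2 * (D.m ρ / (1 + |(D.z ρ).im|) ^ (2 : ℝ))) ∧
    |D.m ρ * ((D.z ρ).im - w.im) ^ 2 * ‖W.LT g (D.z ρ)‖ ^ 2| ≤
      (2 + |w.im|) ^ 2 * (4 * e ^ 2 * (D.m ρ / (1 + |(D.z ρ).im|) ^ (2 : ℝ))) := by
  have h1 : D.m ρ * (1 + |(D.z ρ).im|) ^ 2 * ‖W.LT g (D.z ρ)‖ ^ 2 ≤
      4 * e ^ 2 * (D.m ρ / (1 + |(D.z ρ).im|) ^ (2 : ℝ)) := by
    have h1 := hg ρ hρ
    set y := |(D.z ρ).im| with hy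
    have hy0 : 0 ≤ y := abs_nonneg _
    have e2 : (1 + y) ^ (2 : ℝ) = (1 + y) ^ 2 := by norm_cast
    have hm := D.m_nonneg ρ
    rw [e2, ← mul_div_assoc, le_div_iff₀ (by positivity)]
    have h2 : (‖W.LT g (D.z ρ)‖ * (1 + y ^ 2)) ^ 2 ≤ e ^ 2 := by
      gcongr
    have h3 : (1 + y) ^ 4 ≤ 4 * (1 + y ^ 2) ^ 2 := by
      have h4 : (1 + y) ^ 2 ≤ 2 * (1 + y ^ 2) := by nlinarith [sq_nonneg (1 - y)]
      calc (1 + y) ^ 4 = ((1 + y) ^ 2) ^ 2 := by ring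
        _ ≤ (2 * (1 + y ^ 2)) ^ 2 := by gcongr
        _ = _ := by ring
    calc D.m ρ * (1 + y) ^ 2 * ‖W.LT g (D.z ρ)‖ ^ 2 * (1 + y) ^ 2 =
          D.m ρ * (‖W.LT g (D.z ρ)‖ ^ 2 * (1 + y) ^ 4) := by ring
      _ ≤ D.m ρ * (‖W.LT g (D.z ρ)‖ ^ 2 * (4 * (1 + y ^ 2) ^ 2)) := by gcongr
      _ = D.m ρ * (4 * (‖W.LT g (D.z ρ)‖ * (1 + y ^ 2)) ^ 2) := by ring
      _ ≤ D.m ρ * (4 * e ^ 2) := by gcongr
      _ = _ := by ring
  have h2 := shift_bound (y0 := w.im) (w := w.im) (y := (D.z ρ).im) (by simp)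
  set y := (D.z ρ).im
  set Y := |w.im| with hY
  have hY0 : 0 ≤ Y := abs_nonneg _
  have hm := D.m_nonneg ρ
  have h3 : |y - w.im| ^ 2 ≤ (2 + Y) ^ 2 * (1 + |y|) ^ 2 := by
    rw [← mul_pow]
    exact pow_le_pow_left₀ (abs_nonneg _) h2 2
  have h4 : (1 : ℝ) ≤ (2 + Y) ^ 2 * (1 + |y|) ^ 2 := by
    rw [← mul_pow]
    apply one_le_pow₀
    nlinarith [abs_nonneg y, mul_nonneg hY0 (abs_nonneg y)]
  have hL : 0 ≤ ‖W.LT g (D.z ρ)‖ ^ 2 := sq_nonneg _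
  constructor
  · rw [abs_mul, abs_of_nonneg hm, abs_of_nonneg hL]
    calc D.m ρ * ‖W.LT g (D.z ρ)‖ ^ 2 = D.m ρ * 1 * ‖W.LT g (D.z ρ)‖ ^ 2 := by ring
      _ ≤ D.m ρ * ((2 + Y) ^ 2 * (1 + |y|) ^ 2) * ‖W.LT g (D.z ρ)‖ ^ 2 := by gcongr
      _ = (2 + Y) ^ 2 * (D.m ρ * (1 + |y|) ^ 2 * ‖W.LT g (D.z ρ)‖ ^ 2) := by ring
      _ ≤ _ := by gcongr
  · rw [abs_mul, abs_mul, abs_of_nonneg hm, abs_of_nonneg hL, abs_pow]
    calc D.m ρ * |y - w.im| ^ 2 * ‖W.LT g (D.z ρ)‖ ^ 2 ≤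
        D.m ρ * ((2 + Y) ^ 2 * (1 + |y|) ^ 2) * ‖W.LT g (D.z ρ)‖ ^ 2 := by gcongr
      _ = (2 + Y) ^ 2 * (D.m ρ * (1 + |y|) ^ 2 * ‖W.LT g (D.z ρ)‖ ^ 2) := by ring
      _ ≤ _ := by gcongr

lemma mw_nonneg (w : ℂ) : 0 ≤ mw D w := by
  unfold mw
  refine tsum_nonneg fun ρ => ?_
  split_ifs
  · exact D.m_nonneg ρ
  · exact le_rfl

/-- the error -/
noncomputable def RW (D : Dat) (w : ℂ) (e : ℝ) : ℝ := (2 + |w.im|) ^ 2 * (4 * e ^ 2 * SD D)

lemma RW_nonneg (w : ℂ) (e : ℝ) : 0 ≤ RW D w e := by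
  unfold RW
  have := SD_nonneg (D := D)
  positivity

lemma restw_tsum {w : ℂ} {e : ℝ} :
    ∑' ρ : D.ι, (2 + |w.im|) ^ 2 * (4 * e ^ 2 * (D.m ρ / (1 + |(D.z ρ).im|) ^ (2 : ℝ))) = RW D w e := by
  rw [tsum_mul_left, tsum_mul_left]
  rfl

/-- a measure that represents the form -/
structure TraceF (D : Dat) (a : ℝ) {ζ : Type} (p : ζ → ℂ) (ν : ζ → ℝ) : Prop where
  re : ∀ s, (p s).re = 0
  nn : ∀ s, 0 ≤ ν s
  sum : ∀ g : Ts a, HasSum (fun s => ν s * ‖W.LT g (p s)‖ ^ 2) ((D.Wf g g).re - D.low a * ‖toL a g‖ ^ 2)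

lemma arith2 {W S L M η δ mw R B S2 : ℝ} (hL : 1 ≤ L) (hM : 0 ≤ M) (hη : 0 < η) (hη1 : 3 * M * η ≤ 1) (hδ : 0 < δ)
    (hR : 0 ≤ R) (hB : 0 ≤ B) (hW : 0 ≤ W) (hS2 : S2 ≤ R)
    (h1 : |W * L ^ 2 - S| ≤ 3 / 2 * L ^ 2 * M * η * W + (6 * M / η + 1 / δ ^ 2) * S2)
    (h2 : |S - mw * L ^ 2| ≤ R + B * R * M ^ 2) :
    |W - mw| ≤ 3 * M * mw * η + 2 * (6 * M * R / η + R / δ ^ 2 + R + B * M ^ 2 * R) := by
  set E : ℝ := 6 * M * R / η + R / δ ^ 2 + R + B * M ^ 2 * R with hE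
  have hE0 : 0 ≤ E := by positivity
  have hL2 : 1 ≤ L ^ 2 := one_le_pow₀ hL
  have h3 : (6 * M / η + 1 / δ ^ 2) * S2 ≤ (6 * M / η + 1 / δ ^ 2) * R :=
    mul_le_mul_of_nonneg_left hS2 (by positivity)
  have h4 : (6 * M / η + 1 / δ ^ 2) * R = 6 * M * R / η + R / δ ^ 2 := by ring
  have h5 : |W * L ^ 2 - mw * L ^ 2| ≤ 3 / 2 * L ^ 2 * M * η * W + E := by
    have e : W * L ^ 2 - mw * L ^ 2 = (W * L ^ 2 - S) + (S - mw * L ^ 2) := by ring
    rw [e]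
    refine (abs_add_le _ _).trans ?_
    have h6 : B * R * M ^ 2 = B * M ^ 2 * R := by ring
    linarith
  have h6 : |W - mw| * L ^ 2 ≤ (3 / 2 * M * η * W + E) * L ^ 2 := by
    have e : |W - mw| * L ^ 2 = |W * L ^ 2 - mw * L ^ 2| := by
      rw [← sub_mul, abs_mul, abs_of_nonneg (by positivity : (0 : ℝ) ≤ L ^ 2)]
    rw [e]
    have h7 : E ≤ E * L ^ 2 := le_mul_of_one_le_right hE0 hL2
    calc |W * L ^ 2 - mw * L ^ 2| ≤ 3 / 2 * L ^ 2 * M * η * W + E := h5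
      _ ≤ 3 / 2 * L ^ 2 * M * η * W + E * L ^ 2 := by linarith
      _ = _ := by ring
  have h7 : |W - mw| ≤ 3 / 2 * M * η * W + E := le_of_mul_le_mul_right h6 (by positivity)
  have h8 : W ≤ 2 * mw + 2 * E := by
    have h9 := (abs_le.mp h7).2
    have h10 : 3 * M * η * W ≤ 1 * W := mul_le_mul_of_nonneg_right hη1 hW
    linarith
  have h9 : 3 / 2 * M * η * W ≤ 3 / 2 * M * η * (2 * mw + 2 * E) := mul_le_mul_of_nonneg_left h8 (by positivity)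
  have h10 : 3 * M * η * E ≤ 1 * E := mul_le_mul_of_nonneg_right hη1 hE0
  have h11 : 3 / 2 * M * η * (2 * mw + 2 * E) = 3 * M * mw * η + 3 * M * η * E := by ring
  linarith

/-- the pointwise inequality -/
lemma arith3 {ν G t L M η δ : ℝ} (hν : 0 ≤ ν) (hG : 0 ≤ G) (ht : 0 ≤ t) (hL : 1 ≤ L) (hM : 0 ≤ M) (hη : 0 < η)
    (htM : 2 * M * t ≤ 1) (hd : |G - L| ≤ M * t) :
    |ν * L ^ 2 - ν * G ^ 2| ≤ 3 / 2 * L ^ 2 * M * η * ν + (6 * M / η + 1 / δ ^ 2) * (ν * (t ^ 2 * G ^ 2)) ∧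
      ν ≤ 4 * (ν * G ^ 2) := by
  rw [abs_le] at hd
  have h1 : L / 2 ≤ G := by nlinarith
  have h2 : L ^ 2 ≤ 4 * G ^ 2 := by nlinarith
  have hL2 : 1 ≤ L ^ 2 := one_le_pow₀ hL
  have h3 : |L ^ 2 - G ^ 2| ≤ 3 * L ^ 2 * M * t := by
    have e : L ^ 2 - G ^ 2 = (L - G) * (L + G) := by ring
    rw [e, abs_mul, abs_of_nonneg (by linarith : 0 ≤ L + G)]
    have h4 : |L - G| ≤ M * t := by
      rw [abs_sub_comm, abs_le]
      exact hd
    have h5 : L + G ≤ 3 * L := by nlinarith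
    have h6 : |L - G| * (L + G) ≤ (M * t) * (3 * L) := mul_le_mul h4 h5 (by linarith) (by positivity)
    have h7 : (M * t) * (3 * L) ≤ (M * t) * (3 * L ^ 2) := by
      apply mul_le_mul_of_nonneg_left _ (by positivity)
      nlinarith
    calc |L - G| * (L + G) ≤ (M * t) * (3 * L ^ 2) := h6.trans h7
      _ = _ := by ring
  have h4 : t ≤ η / 2 + t ^ 2 / (2 * η) := by
    have e : η / 2 + t ^ 2 / (2 * η) - t = (t - η) ^ 2 / (2 * η) := by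
      field_simp
      ring
    have : 0 ≤ (t - η) ^ 2 / (2 * η) := by positivity
    linarith
  constructor
  · rw [← mul_sub, abs_mul, abs_of_nonneg hν]
    have h5 : 3 * L ^ 2 * M * t ≤ 3 * L ^ 2 * M * (η / 2 + t ^ 2 / (2 * η)) := mul_le_mul_of_nonneg_left h4 (by positivity)
    have h6 : 3 * L ^ 2 * M * (t ^ 2 / (2 * η)) ≤ 3 * (4 * G ^ 2) * M * (t ^ 2 / (2 * η)) := by gcongr
    have h7 : 3 * (4 * G ^ 2) * M * (t ^ 2 / (2 * η)) = 6 * M / η * (t ^ 2 * G ^ 2) := by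
      field_simp
      ring
    have h8 : 0 ≤ 1 / δ ^ 2 * (t ^ 2 * G ^ 2) := by positivity
    have h9 : |L ^ 2 - G ^ 2| ≤ 3 / 2 * L ^ 2 * M * η + (6 * M / η + 1 / δ ^ 2) * (t ^ 2 * G ^ 2) := by
      have e : 3 * L ^ 2 * M * (η / 2 + t ^ 2 / (2 * η)) = 3 / 2 * L ^ 2 * M * η + 3 * L ^ 2 * M * (t ^ 2 / (2 * η)) := by
        ring
      have e2 : (6 * M / η + 1 / δ ^ 2) * (t ^ 2 * G ^ 2) = 6 * M / η * (t ^ 2 * G ^ 2) + 1 / δ ^ 2 * (t ^ 2 * G ^ 2) := by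
        ring
      linarith
    calc ν * |L ^ 2 - G ^ 2| ≤ ν * (3 / 2 * L ^ 2 * M * η + (6 * M / η + 1 / δ ^ 2) * (t ^ 2 * G ^ 2)) :=
          mul_le_mul_of_nonneg_left h9 hν
      _ = _ := by ring
  · have h5 : 1 ≤ 4 * G ^ 2 := by linarith
    nlinarith

variable (hR : ∀ ρ : D.ι, (D.z ρ).re = 0)

include hR

/-- the lowest eigenvalue is small -/
lemma loww_small (ha : 0 < a) {w : ℂ} (hw : w.re = 0) {e : ℝ} {g : Ts a} (h1 : 1 ≤ ‖W.LT g w‖)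
    (hg : ∀ ρ : D.ι, D.z ρ ≠ w → ‖W.LT g (D.z ρ)‖ * (1 + |(D.z ρ).im| ^ 2) ≤ e) :
    (D.Wf (Ao a w g) (Ao a w g)).re ≤ RW D w e ∧ D.low a ≤ (2 * a) ^ 3 * RW D w e := by
  have hlow := low_nonneg hR ha
  have h2 := low_le (D := D) ha (Ao a w g)
  have hco : (Ao a w g : ℝ → ℂ) = Aw w g := rfl
  have h3 := tsum_exc (f := fun ρ : D.ι => D.m ρ * ((D.z ρ).im - w.im) ^ 2 * ‖W.LT g (D.z ρ)‖ ^ 2) (w := w) (X := 0)
    ((D.sum.mul_left (4 * e ^ 2)).mul_left ((2 + |w.im|) ^ 2))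
    (fun ρ => by
      have := D.m_nonneg ρ
      positivity)
    (fun ρ hρ => (rest_w hg ρ hρ).2) (fun ρ hρ => by rw [hρ]; simp)
  rw [restw_tsum, mul_zero, sub_zero] at h3
  have h4 := (le_abs_self _).trans h3
  have h5 : (D.Wf (Ao a w g) (Ao a w g)).re ≤ RW D w e := by
    rw [hco, Wf_Aw2 hR (Ts.tf g.2) hw]
    exact h4
  refine ⟨h5, ?_⟩
  have h6 : 1 ≤ Real.sqrt (2 * a) * (2 * a * ‖toL a (Ao a w g)‖) := by
    have e1 := ev_bound ha (z := w) (R := 0) (by rw [hw, abs_zero]) (toL a g)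
    rw [ev_toL, zero_mul, Real.exp_zero, mul_one] at e1
    exact (h1.trans e1).trans (mul_le_mul_of_nonneg_left (inv_line ha hw g) (Real.sqrt_nonneg _))
  have h7 : 1 ≤ (2 * a) ^ 3 * ‖toL a (Ao a w g)‖ ^ 2 := by
    have h8 := one_le_pow₀ h6 (n := 2)
    rw [mul_pow, mul_pow, Real.sq_sqrt (by positivity)] at h8
    linarith
  calc D.low a = D.low a * 1 := (mul_one _).symm
    _ ≤ D.low a * ((2 * a) ^ 3 * ‖toL a (Ao a w g)‖ ^ 2) := mul_le_mul_of_nonneg_left h7 hlow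
    _ = (2 * a) ^ 3 * (D.low a * ‖toL a (Ao a w g)‖ ^ 2) := by ring
    _ ≤ _ := mul_le_mul_of_nonneg_left (h2.trans h5) (by positivity)

open Classical in
/-- the mass near a point -/
theorem mass_est (ha : 0 < a) {w : ℂ} (hw : w.re = 0) {M e : ℝ} (hM : 0 ≤ M)
    (hT : TW D w M e a) {ζ : Type} {p : ζ → ℂ} {ν : ζ → ℝ} (hF : TraceF D a p ν) {η δ r : ℝ} (hη : 0 < η)
    (hη1 : 3 * M * η ≤ 1) (hδ : 0 < δ) (hδ1 : 2 * M * δ ≤ 1) (hr : 2 * M * r ≤ 1) :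
    |(∑' s, if ‖p s - w‖ ≤ δ then ν s else 0) - mw D w| ≤
        3 * M * mw D w * η + 2 * (6 * M * RW D w e / η + RW D w e / δ ^ 2 + RW D w e +
          (2 * a) ^ 3 * M ^ 2 * RW D w e) ∧
      (∑' s, if δ < ‖p s - w‖ ∧ ‖p s - w‖ < r then ν s else 0) ≤ 4 * RW D w e / δ ^ 2 := by
  obtain ⟨g, hg1, hg2, hg3, hg4⟩ := hT
  set L := ‖W.LT g w‖ with hL
  obtain ⟨hS2, hlow⟩ := loww_small hR ha hw hg1 hg4
  have hlow0 := low_nonneg hR ha
  have hR0 := RW_nonneg (D := D) w e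
  set R := RW D w e with hRdef
  have hsum1 := hF.sum g
  have hsum2 := hF.sum (Ao a w g)
  have hsum2' : HasSum (fun s => ν s * (‖p s - w‖ ^ 2 * ‖W.LT g (p s)‖ ^ 2))
      ((D.Wf (Ao a w g) (Ao a w g)).re - D.low a * ‖toL a (Ao a w g)‖ ^ 2) := by
    refine hsum2.congr_fun fun s => ?_
    rw [LT_Ao, norm_mul, mul_pow]
  set S := (D.Wf g g).re - D.low a * ‖toL a g‖ ^ 2 with hS
  set S2 := (D.Wf (Ao a w g) (Ao a w g)).re - D.low a * ‖toL a (Ao a w g)‖ ^ 2 with hS2def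
  have hS2R : S2 ≤ R := by
    have : 0 ≤ D.low a * ‖toL a (Ao a w g)‖ ^ 2 := by positivity
    linarith
  have hbnn : ∀ s, 0 ≤ ν s * (‖p s - w‖ ^ 2 * ‖W.LT g (p s)‖ ^ 2) := fun s =>
    mul_nonneg (hF.nn s) (by positivity)
  have hann : ∀ s, 0 ≤ ν s * ‖W.LT g (p s)‖ ^ 2 := fun s => mul_nonneg (hF.nn s) (by positivity)
  -- pointwise
  have hpt : ∀ s, 2 * M * ‖p s - w‖ ≤ 1 →
      |ν s * L ^ 2 - ν s * ‖W.LT g (p s)‖ ^ 2| ≤ 3 / 2 * L ^ 2 * M * η * ν s +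
        (6 * M / η + 1 / δ ^ 2) * (ν s * (‖p s - w‖ ^ 2 * ‖W.LT g (p s)‖ ^ 2)) ∧
        ν s ≤ 4 * (ν s * ‖W.LT g (p s)‖ ^ 2) := by
    intro s hs
    refine arith3 (hF.nn s) (norm_nonneg _) (norm_nonneg _) hg1 hM hη hs ?_
    refine (abs_norm_sub_norm_le _ _).trans (hg3 (p s) (hF.re s))
  set N : ζ → ℝ := fun s => if ‖p s - w‖ ≤ δ then ν s else 0 with hN
  have hN0 : ∀ s, 0 ≤ N s := by
    intro s
    simp only [hN]
    split_ifs
    · exact hF.nn s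
    · exact le_rfl
  have hN4 : ∀ s, N s ≤ 4 * (ν s * ‖W.LT g (p s)‖ ^ 2) := by
    intro s
    by_cases h : ‖p s - w‖ ≤ δ
    · simp only [hN, if_pos h]
      refine (hpt s ?_).2
      have := mul_le_mul_of_nonneg_left h (by positivity : 0 ≤ 2 * M)
      linarith
    · simp only [hN, if_neg h]
      have := hann s
      positivity
  have hNs : Summable N := Summable.of_nonneg_of_le hN0 hN4 (hsum1.summable.mul_left 4)
  constructor
  · -- the main estimate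
    have hb : ∀ s, ‖N s * L ^ 2 - ν s * ‖W.LT g (p s)‖ ^ 2‖ ≤ 3 / 2 * L ^ 2 * M * η * N s +
        (6 * M / η + 1 / δ ^ 2) * (ν s * (‖p s - w‖ ^ 2 * ‖W.LT g (p s)‖ ^ 2)) := by
      intro s
      rw [Real.norm_eq_abs]
      by_cases h : ‖p s - w‖ ≤ δ
      · simp only [hN, if_pos h]
        refine (hpt s ?_).1
        have := mul_le_mul_of_nonneg_left h (by positivity : 0 ≤ 2 * M)
        linarith
      · simp only [hN, if_neg h]
        rw [zero_mul, zero_sub, abs_neg, abs_of_nonneg (hann s), mul_zero, zero_add]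
        push Not at h
        have h1 : 1 ≤ 1 / δ ^ 2 * ‖p s - w‖ ^ 2 := by
          rw [one_div, ← div_eq_inv_mul, one_le_div (by positivity)]
          exact pow_le_pow_left₀ hδ.le h.le 2
        have h2 := mul_le_mul_of_nonneg_left h1 (hann s)
        have h3 : 0 ≤ 6 * M / η * (ν s * (‖p s - w‖ ^ 2 * ‖W.LT g (p s)‖ ^ 2)) := mul_nonneg (by positivity) (hbnn s)
        calc ν s * ‖W.LT g (p s)‖ ^ 2 = ν s * ‖W.LT g (p s)‖ ^ 2 * 1 := (mul_one _).symm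
          _ ≤ ν s * ‖W.LT g (p s)‖ ^ 2 * (1 / δ ^ 2 * ‖p s - w‖ ^ 2) := h2
          _ ≤ ν s * ‖W.LT g (p s)‖ ^ 2 * (1 / δ ^ 2 * ‖p s - w‖ ^ 2) +
              6 * M / η * (ν s * (‖p s - w‖ ^ 2 * ‖W.LT g (p s)‖ ^ 2)) := by linarith
          _ = _ := by ring
    have hbs := ((hNs.hasSum.mul_left (3 / 2 * L ^ 2 * M * η)).add (hsum2'.mul_left (6 * M / η + 1 / δ ^ 2)))
    have h1 := tsum_of_norm_bounded hbs hb
    rw [(hNs.mul_right (L ^ 2)).tsum_sub hsum1.summable, hsum1.tsum_eq, tsum_mul_right, Real.norm_eq_abs] at h1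
    have h2 : |S - mw D w * L ^ 2| ≤ R + (2 * a) ^ 3 * R * M ^ 2 := by
      have h3 := tsum_exc (f := fun ρ : D.ι => D.m ρ * ‖W.LT g (D.z ρ)‖ ^ 2) (w := w) (X := L ^ 2)
        ((D.sum.mul_left (4 * e ^ 2)).mul_left ((2 + |w.im|) ^ 2))
        (fun ρ => by
          have := D.m_nonneg ρ
          positivity)
        (fun ρ hρ => (rest_w hg4 ρ hρ).1) (fun ρ hρ => by rw [hρ])
      rw [restw_tsum] at h3
      have h4 : (D.Wf g g).re = ∑' ρ : D.ι, D.m ρ * ‖W.LT g (D.z ρ)‖ ^ 2 := by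
        rw [Wf_self_eq hR, Complex.ofReal_re]
      rw [← h4] at h3
      have h5 : D.low a * ‖toL a g‖ ^ 2 ≤ (2 * a) ^ 3 * R * M ^ 2 := by
        refine mul_le_mul hlow (pow_le_pow_left₀ (norm_nonneg _) hg2 2) (sq_nonneg _) ?_
        positivity
      have h6 : 0 ≤ D.low a * ‖toL a g‖ ^ 2 := by positivity
      rw [abs_le] at h3 ⊢
      constructor
      · linarith [h3.1]
      · linarith [h3.2, (by positivity : 0 ≤ (2 * a) ^ 3 * R * M ^ 2)]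
    have h3 := arith2 (B := (2 * a) ^ 3) hg1 hM hη hη1 hδ hR0 (by positivity) (tsum_nonneg hN0) hS2R h1 h2
    exact h3
  · have h1 : ∀ s, (if δ < ‖p s - w‖ ∧ ‖p s - w‖ < r then ν s else 0) ≤
        4 / δ ^ 2 * (ν s * (‖p s - w‖ ^ 2 * ‖W.LT g (p s)‖ ^ 2)) := by
      intro s
      split_ifs with h
      · have h2 := (hpt s (by
          have := mul_le_mul_of_nonneg_left h.2.le (by positivity : 0 ≤ 2 * M)
          linarith)).2
        have h3 : 1 ≤ 1 / δ ^ 2 * ‖p s - w‖ ^ 2 := by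
          rw [one_div, ← div_eq_inv_mul, one_le_div (by positivity)]
          exact pow_le_pow_left₀ hδ.le h.1.le 2
        have h4 := mul_le_mul_of_nonneg_left h3 (hann s)
        calc ν s ≤ 4 * (ν s * ‖W.LT g (p s)‖ ^ 2) := h2
          _ = 4 * (ν s * ‖W.LT g (p s)‖ ^ 2 * 1) := by ring
          _ ≤ 4 * (ν s * ‖W.LT g (p s)‖ ^ 2 * (1 / δ ^ 2 * ‖p s - w‖ ^ 2)) := by linarith
          _ = _ := by ring
      · exact mul_nonneg (by positivity) (hbnn s)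
    have h0 : ∀ s, 0 ≤ (if δ < ‖p s - w‖ ∧ ‖p s - w‖ < r then ν s else 0) := by
      intro s
      split_ifs
      · exact hF.nn s
      · exact le_rfl
    have h2 := hsum2'.mul_left (4 / δ ^ 2)
    have h3 : Summable fun s => (if δ < ‖p s - w‖ ∧ ‖p s - w‖ < r then ν s else 0) :=
      Summable.of_nonneg_of_le h0 h1 h2.summable
    have h4 := h3.tsum_le_tsum h1 h2.summable
    rw [h2.tsum_eq] at h4
    refine h4.trans ?_
    have h5 := mul_le_mul_of_nonneg_left hS2R (by positivity : 0 ≤ 4 / δ ^ 2)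
    refine h5.trans (le_of_eq ?_)
    ring

open Classical in
/-- the masses converge doubly exponentially fast -/
theorem mass_conv {w : ℂ} (hw : w.re = 0) {M c A : ℝ} (hM : 0 ≤ M) (hc : 0 < c)
    (hT : ∀ a : ℝ, A ≤ a → TW D w M (M * Real.exp (-(c * Real.exp (2 * a)))) a) :
    ∃ r A' : ℝ, 0 < r ∧ ∀ a : ℝ, A' ≤ a → 0 < a → ∀ (ζ : Type) (p : ζ → ℂ) (ν : ζ → ℝ), TraceF D a p ν →
      |(∑' s, if ‖p s - w‖ ≤ Real.exp (-(c / 4 * Real.exp (2 * a))) then ν s else 0) - mw D w| ≤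
          Real.exp (-(c / 4 * Real.exp (2 * a))) ∧
        (∑' s, if Real.exp (-(c / 4 * Real.exp (2 * a))) < ‖p s - w‖ ∧ ‖p s - w‖ < r then ν s else 0) ≤
          Real.exp (-(c / 4 * Real.exp (2 * a))) := by
  set K : ℝ := (2 + |w.im|) ^ 2 * (4 * M ^ 2 * SD D) with hK
  have hK0 : 0 ≤ K := by
    have := SD_nonneg (D := D)
    positivity
  have hmw := mw_nonneg (D := D) w
  set C0 : ℝ := 3 * M * mw D w + 12 * M * K + 4 * K + 3 * M with hC0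
  set C3 : ℝ := 16 * M ^ 2 * K with hC3
  have hC00 : 0 ≤ C0 := by positivity
  have hC30 : 0 ≤ C3 := by positivity
  have hlim : Tendsto (fun a : ℝ => (C0 + C3 * a ^ 3) * Real.exp (-(c / 4 * a))) atTop (𝓝 0) := by
    have h1 : Tendsto (fun a : ℝ => c / 4 * a) atTop atTop := tendsto_id.const_mul_atTop (by positivity)
    have h2 := (Real.tendsto_pow_mul_exp_neg_atTop_nhds_zero 3).comp h1
    have h3 := (Real.tendsto_pow_mul_exp_neg_atTop_nhds_zero 0).comp h1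
    have h4 := (h3.const_mul C0).add (h2.const_mul (C3 / (c / 4) ^ 3))
    rw [mul_zero, mul_zero, add_zero] at h4
    refine h4.congr fun a => ?_
    simp only [Function.comp_apply]
    have hcc : c / 4 ≠ 0 := by positivity
    have e : C3 / (c / 4) ^ 3 * ((c / 4 * a) ^ 3 * Real.exp (-(c / 4 * a))) = C3 * a ^ 3 * Real.exp (-(c / 4 * a)) := by
      rw [mul_pow]
      have : (c / 4) ^ 3 ≠ 0 := pow_ne_zero _ hcc
      field_simp
    rw [e, pow_zero, one_mul]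
    ring
  obtain ⟨A1, hA1⟩ := eventually_atTop.mp (hlim.eventually_lt_const (by norm_num : (0 : ℝ) < 1))
  refine ⟨1 / (2 * M + 1), max A A1, by positivity, fun a haA ha ζ p ν hF => ?_⟩
  set X : ℝ := Real.exp (-(c / 4 * Real.exp (2 * a))) with hX
  have hX0 : 0 < X := Real.exp_pos _
  have hX1 : X ≤ 1 := by
    rw [hX]
    apply Real.exp_le_one_iff.mpr
    have : 0 < c / 4 * Real.exp (2 * a) := by positivity
    linarith
  have hXX : X ^ 4 = Real.exp (-(c * Real.exp (2 * a))) := by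
    rw [hX, ← Real.exp_nat_mul]
    congr 1
    push_cast
    ring
  have hXa : X ≤ Real.exp (-(c / 4 * a)) := by
    rw [hX]
    apply Real.exp_le_exp.mpr
    have h5 : a ≤ Real.exp (2 * a) := by
      have := Real.add_one_le_exp (2 * a)
      linarith
    have := mul_le_mul_of_nonneg_left h5 (by positivity : 0 ≤ c / 4)
    linarith
  have hmain : (C0 + C3 * a ^ 3) * X ≤ 1 := by
    have h1 := hA1 a ((le_max_right _ _).trans haA)
    have h2 := mul_le_mul_of_nonneg_left hXa (by positivity : 0 ≤ C0 + C3 * a ^ 3)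
    linarith
  have hC0X : C0 * X ≤ 1 := by
    have : 0 ≤ C3 * a ^ 3 * X := by positivity
    linarith
  have hTa := hT a ((le_max_left _ _).trans haA)
  rw [← hXX] at hTa
  have hMX : 3 * M * X ≤ 1 := by
    have : 3 * M * X ≤ C0 * X := by
      apply mul_le_mul_of_nonneg_right _ hX0.le
      have : 0 ≤ 3 * M * mw D w + 12 * M * K + 4 * K := by positivity
      linarith
    linarith
  have hX2 : X ^ 2 ≤ X := by nlinarith
  have h1 := mass_est hR ha hw hM hTa hF (η := X ^ 2) (δ := X) (r := 1 / (2 * M + 1)) (by positivity)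
    (by
      have := mul_le_mul_of_nonneg_left hX2 (by positivity : 0 ≤ 3 * M)
      linarith) hX0 (by
      have : 0 ≤ M * X := by positivity
      linarith) (by
      rw [mul_one_div, div_le_one (by positivity)]
      linarith)
  have hRW : RW D w (M * X ^ 4) = K * X ^ 8 := by
    unfold RW
    rw [hK]
    ring
  rw [hRW] at h1
  have e1 : 6 * M * (K * X ^ 8) / X ^ 2 = 6 * M * K * X ^ 6 := by field_simp
  have e2 : K * X ^ 8 / X ^ 2 = K * X ^ 6 := by field_simp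
  have e3 : 4 * (K * X ^ 8) / X ^ 2 = 4 * K * X ^ 6 := by field_simp
  rw [e1, e2, e3] at h1
  have hX6 : X ^ 6 ≤ X ^ 2 := pow_le_pow_of_le_one hX0.le hX1 (by norm_num)
  have hX8 : X ^ 8 ≤ X ^ 2 := pow_le_pow_of_le_one hX0.le hX1 (by norm_num)
  refine ⟨h1.1.trans ?_, h1.2.trans ?_⟩
  · have k1 : 6 * M * K * X ^ 6 ≤ 6 * M * K * X ^ 2 := mul_le_mul_of_nonneg_left hX6 (by positivity)
    have k2 : K * X ^ 6 ≤ K * X ^ 2 := mul_le_mul_of_nonneg_left hX6 hK0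
    have k3 : K * X ^ 8 ≤ K * X ^ 2 := mul_le_mul_of_nonneg_left hX8 hK0
    have k4 : (2 * a) ^ 3 * M ^ 2 * (K * X ^ 8) ≤ (2 * a) ^ 3 * M ^ 2 * (K * X ^ 2) :=
      mul_le_mul_of_nonneg_left k3 (by positivity)
    have k5 : ((C0 + C3 * a ^ 3) * X) * X ≤ 1 * X := mul_le_mul_of_nonneg_right hmain hX0.le
    have k6 : ((C0 + C3 * a ^ 3) * X) * X = 3 * M * mw D w * X ^ 2 + 2 * (6 * M * K * X ^ 2 + K * X ^ 2 + K * X ^ 2 +
        (2 * a) ^ 3 * M ^ 2 * (K * X ^ 2)) + 3 * M * X ^ 2 := by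
      rw [hC0, hC3]
      ring
    have k7 : 0 ≤ 3 * M * X ^ 2 := by positivity
    linarith
  · have k1 : 4 * K * X ^ 6 ≤ 4 * K * X ^ 2 := mul_le_mul_of_nonneg_left hX6 (by positivity)
    have k2 : 4 * K * X ≤ C0 * X := by
      apply mul_le_mul_of_nonneg_right _ hX0.le
      have : 0 ≤ 3 * M * mw D w + 12 * M * K + 3 * M := by positivity
      linarith
    have k3 : (4 * K * X) * X ≤ 1 * X := mul_le_mul_of_nonneg_right (k2.trans hC0X) hX0.le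
    have k4 : (4 * K * X) * X = 4 * K * X ^ 2 := by ring
    linarith

end Pool.Agent.Helper61.GR
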