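import Pool.Agent.Helper61.GR.Ct
import Pool.Agent.Helper61.GR.Ms

set_option autoImplicit false

/-!
# Removing one zero
-/

namespace Pool.Agent.Helper61.GR

open Complex Filter Topology Set MeasureTheory
open Pool.Agent.Helper61.W Pool.Agent.Helper61.W.GS
open Pool.Agent.Helper61.GA
open scoped ComplexConjugate ContDiff

variable {c C : ℝ} {f g : ℝ → ℂ}

/-- the value at the zero -/
lemma val_at (hc : 0 < c) {k : ℝ → ℂ} (hk : SB c C k) {z0 : ℂ} (hz0 : z0.re = 0) {G h : ℂ → ℂ} {n j : ℕ}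
    (hj : j ≤ n) (hh : ContinuousAt h z0) (hG : ∀ᶠ z in 𝓝 z0, G z = (z - z0) ^ n * h z)
    (hk2 : ∀ z : ℂ, z.re = 0 → G z = (z - z0) ^ j * W.LT k z) :
    W.LT k z0 = (z0 - z0) ^ (n - j) * h z0 := by
  have e0 : z0 = (z0.im : ℂ) * I := by
    apply Complex.ext
    · simp [hz0]
    · simp
  have hcurve : Tendsto (fun y : ℝ => (y : ℂ) * I) (𝓝 z0.im) (𝓝 z0) := by
    have h1 : Continuous fun y : ℝ => (y : ℂ) * I := by fun_prop
    have := h1.tendsto z0.im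
    rwa [← e0] at this
  have h1 : Tendsto (fun y : ℝ => W.LT k (y * I)) (𝓝[≠] z0.im) (𝓝 (W.LT k z0)) := by
    have := (LT_cont hc hk.cont hk.b0).tendsto z0.im
    rw [← e0] at this
    exact this.mono_left nhdsWithin_le_nhds
  have h2 : Tendsto (fun y : ℝ => ((y : ℂ) * I - z0) ^ (n - j) * h (y * I)) (𝓝[≠] z0.im)
      (𝓝 ((z0 - z0) ^ (n - j) * h z0)) := by
    refine Tendsto.mul ?_ ?_
    · exact ((hcurve.sub_const z0).pow _).mono_left nhdsWithin_le_nhds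
    · exact (hh.tendsto.comp hcurve).mono_left nhdsWithin_le_nhds
  refine tendsto_nhds_unique h1 (h2.congr' ?_)
  filter_upwards [(hcurve.eventually hG).filter_mono nhdsWithin_le_nhds, self_mem_nhdsWithin] with y hy1 hy2
  have h3 := hk2 ((y : ℂ) * I) (by simp)
  rw [hy1] at h3
  have hne : (y : ℂ) * I - z0 ≠ 0 := by
    intro h4
    apply hy2
    have h5 := congrArg Complex.im h4
    simp at h5
    rw [mem_singleton_iff]
    linarith
  have h4 : ((y : ℂ) * I - z0) ^ n = ((y : ℂ) * I - z0) ^ j * ((y : ℂ) * I - z0) ^ (n - j) := by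
    rw [← pow_add, Nat.add_sub_cancel' hj]
  rw [h4, mul_assoc] at h3
  exact mul_left_cancel₀ (pow_ne_zero j hne) h3

theorem remove (hc : 0 < c) (hf : SB c C f) {z0 : ℂ} (hz0 : z0.re = 0) {G h : ℂ → ℂ} {n : ℕ}
    (hh : ContinuousAt h z0) (hG : ∀ᶠ z in 𝓝 z0, G z = (z - z0) ^ n * h z)
    (hfG : ∀ z : ℂ, z.re = 0 → W.LT f z = G z) (j : ℕ) (hj : j ≤ n) :
    ∃ (k : ℝ → ℂ) (c' C' : ℝ), 0 < c' ∧ SB c' C' k ∧ ∀ z : ℂ, z.re = 0 → G z = (z - z0) ^ j * W.LT k z := by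
  induction j with
  | zero => exact ⟨f, c, C, hc, hf, fun z hz => by rw [hfG z hz, pow_zero, one_mul]⟩
  | succ j ih =>
    obtain ⟨k, c', C', hc', hk, hk2⟩ := ih (by omega)
    have h0 : W.LT k z0 = 0 := by
      rw [val_at hc' hk hz0 (by omega : j ≤ n) hh hG hk2, sub_self, zero_pow (by omega), zero_mul]
    obtain ⟨k', C'', hk', _, hk3⟩ := SB_div hc' hk hz0 h0
    refine ⟨k', c' / 2, C'', half_pos hc', hk', fun z hz => ?_⟩
    rw [hk2 z hz, hk3 z hz]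
    ring

/-- the family of test functions -/
theorem tfam {D : Dat} (hR : ∀ ρ : D.ι, (D.z ρ).re = 0) {w : ℂ} (hw : w.re = 0) (hc : 0 < c) (hf : SB c C f)
    {G h : ℂ → ℂ} {n : ℕ}
    (hh : ContinuousAt h w) (hh0 : h w ≠ 0) (hG : ∀ᶠ z in 𝓝 w, G z = (z - w) ^ n * h z)
    (hfG : ∀ z : ℂ, z.re = 0 → W.LT f z = G z) (hz : ∀ ρ : D.ι, G (D.z ρ) = 0) :
    ∃ M c' A : ℝ, 0 ≤ M ∧ 0 < c' ∧ ∀ a : ℝ, A ≤ a → TW D w M (M * Real.exp (-(c' * Real.exp (2 * a)))) a := by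
  obtain ⟨k, c1, C1, hc1, hk, hk2⟩ := remove hc hf hw hh hG hfG n le_rfl
  have hκ : W.LT k w = h w := by
    have := val_at hc1 hk hw (le_refl n) hh hG hk2
    rwa [Nat.sub_self, pow_zero, one_mul] at this
  have hother : ∀ ρ : D.ι, D.z ρ ≠ w → W.LT k (D.z ρ) = 0 := by
    intro ρ hρ
    have h1 := hk2 (D.z ρ) (hR ρ)
    rw [hz] at h1
    refine (mul_eq_zero.mp h1.symm).resolve_left (pow_ne_zero _ ?_)
    exact sub_ne_zero.mpr hρ
  obtain ⟨M, c', hM, hc', hcut⟩ := cut hc1 hk w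
  set κ : ℂ := h w with hκdef
  have hκ0 : 0 < ‖κ‖ := norm_pos_iff.mpr hh0
  set q : ℝ := 2 / ‖κ‖ with hq
  have hq0 : 0 < q := by positivity
  have hlim : Tendsto (fun a : ℝ => M * Real.exp (-(c' * Real.exp (2 * a)))) atTop (𝓝 0) := by
    have h1 : Tendsto (fun a : ℝ => c' * Real.exp (2 * a)) atTop atTop :=
      (Real.tendsto_exp_atTop.comp (tendsto_id.const_mul_atTop (by norm_num : (0 : ℝ) < 2))).const_mul_atTop hc'
    have h2 := (Real.tendsto_exp_neg_atTop_nhds_zero.comp h1).const_mul M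
    rw [mul_zero] at h2
    exact h2
  obtain ⟨A1, hA1⟩ := eventually_atTop.mp (hlim.eventually_lt_const (by positivity : 0 < ‖κ‖ / 2))
  refine ⟨q * M, c', max A1 1, by positivity, hc', fun a ha => ?_⟩
  have ha0 : 0 < a := lt_of_lt_of_le one_pos ((le_max_right _ _).trans ha)
  obtain ⟨g, hg1, _, hg2, hg3⟩ := hcut a ha0
  have hA := hA1 a ((le_max_left _ _).trans ha)
  set X : ℝ := M * Real.exp (-(c' * Real.exp (2 * a))) with hX
  have hLT : ∀ z, W.LT ((q : ℂ) • g : Ts a) z = (q : ℂ) * W.LT g z := fun z => LT_smul _ z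
  have hqn : ‖(q : ℂ)‖ = q := by rw [Complex.norm_real, Real.norm_of_nonneg hq0.le]
  refine ⟨(q : ℂ) • g, ?_, ?_, fun z hz' => ?_, fun ρ hρ => ?_⟩
  · rw [hLT, norm_mul, hqn]
    have h1 := hg3 w hw
    rw [hκ] at h1
    have h2 : ‖W.LT g w - κ‖ ≤ X := by
      refine le_trans ?_ h1
      have h3 : 0 ≤ |w.im| ^ 2 := by positivity
      nlinarith [norm_nonneg (W.LT g w - κ)]
    have h3 : ‖κ‖ - ‖W.LT g w‖ ≤ ‖W.LT g w - κ‖ := by
      rw [norm_sub_rev]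
      exact norm_sub_norm_le _ _
    have h4 : ‖κ‖ / 2 ≤ ‖W.LT g w‖ := by linarith
    calc (1 : ℝ) = q * (‖κ‖ / 2) := by rw [hq]; field_simp
      _ ≤ _ := mul_le_mul_of_nonneg_left h4 hq0.le
  · rw [map_smul, norm_smul, hqn]
    exact mul_le_mul_of_nonneg_left hg1 hq0.le
  · rw [hLT, hLT, ← mul_sub, norm_mul, hqn, mul_assoc]
    exact mul_le_mul_of_nonneg_left (hg2 z w hz' hw) hq0.le
  · rw [hLT, norm_mul, hqn]
    have h1 := hg3 (D.z ρ) (hR ρ)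
    rw [hother ρ hρ, sub_zero] at h1
    calc q * ‖W.LT g (D.z ρ)‖ * (1 + |(D.z ρ).im| ^ 2) = q * (‖W.LT g (D.z ρ)‖ * (1 + |(D.z ρ).im| ^ 2)) := by ring
      _ ≤ q * X := mul_le_mul_of_nonneg_left h1 hq0.le
      _ = _ := by rw [hX]; ring

end Pool.Agent.Helper61.GR
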