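import Pool.Agent.Helper61.GR.It
import Pool.Graph.R_seed8.Helper242.KK.Kernel
import Pool.Agent.Helper61.GA.Zt

set_option autoImplicit false

/-!
# The Riemann kernel
-/

namespace Pool.Agent.Helper61.GR

open Complex Filter Topology Set MeasureTheory
open Pool.Agent.Helper61.W Pool.Agent.Helper61.W.GS
open Pool.Agent.Helper61.GA
open scoped ComplexConjugate ContDiff

/-- functions analytic in a strip -/
lemma SB_of_strip {P : ℂ → ℂ} {Y κ K : ℝ} (hY : 1 / 2 < Y) (hP : ∀ t : ℂ, |t.im| < Y → DifferentiableAt ℂ P t)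
    (hκ : 0 < κ) (hb : ∀ t : ℂ, |t.im| ≤ 1 / 2 → ‖P t‖ ≤ K * Real.exp (-(κ * Real.exp (2 * |t.re|)))) :
    SB (κ * Real.exp (-1)) (8 * K) (fun x : ℝ => P x) := by
  have hopen : IsOpen {t : ℂ | |t.im| < Y} := isOpen_lt (continuous_abs.comp continuous_im) continuous_const
  have hon : DifferentiableOn ℂ P {t : ℂ | |t.im| < Y} := fun t ht => (hP t ht).differentiableWithinAt
  have han : ∀ t : ℂ, |t.im| < Y → AnalyticAt ℂ P t := fun t ht => hon.analyticAt (hopen.mem_nhds ht)
  have hr : ∀ x : ℝ, |((x : ℂ)).im| < Y := fun x => by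
    rw [Complex.ofReal_im, abs_zero]
    linarith
  have hd0 : ∀ x : ℝ, HasDerivAt (fun x : ℝ => P x) (deriv P x) x := fun x =>
    (hP x (hr x)).hasDerivAt.comp_ofReal
  have hd1 : ∀ x : ℝ, HasDerivAt (fun x : ℝ => deriv P x) (deriv (deriv P) x) x := fun x =>
    (han x (hr x)).deriv.differentiableAt.hasDerivAt.comp_ofReal
  have e1 : deriv (fun x : ℝ => P x) = fun x : ℝ => deriv P x := funext fun x => (hd0 x).deriv
  have hsph : ∀ x : ℝ, ∀ t ∈ Metric.closedBall (x : ℂ) (1 / 2), |t.im| ≤ 1 / 2 ∧ |x| - 1 / 2 ≤ |t.re| := by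
    intro x t ht
    rw [Metric.mem_closedBall, dist_eq_norm] at ht
    have h1 := (Complex.abs_im_le_norm (t - x)).trans ht
    have h2 := (Complex.abs_re_le_norm (t - x)).trans ht
    rw [Complex.sub_im, Complex.ofReal_im, sub_zero] at h1
    rw [Complex.sub_re, Complex.ofReal_re] at h2
    refine ⟨h1, ?_⟩
    have h3 := abs_sub_abs_le_abs_sub x t.re
    rw [abs_sub_comm] at h3
    linarith
  have hK : 0 ≤ K := by
    have h1 := (norm_nonneg _).trans (hb 0 (by simp))
    exact nonneg_of_mul_nonneg_left h1 (Real.exp_pos _)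
  have hbs : ∀ x : ℝ, ∀ t ∈ Metric.closedBall (x : ℂ) (1 / 2), ‖P t‖ ≤ K * EE (κ * Real.exp (-1)) x := by
    intro x t ht
    obtain ⟨h1, h2⟩ := hsph x t ht
    refine (hb t h1).trans (mul_le_mul_of_nonneg_left ?_ hK)
    unfold EE
    apply Real.exp_le_exp.mpr
    have h3 : Real.exp (-1) * Real.exp (2 * |x|) ≤ Real.exp (2 * |t.re|) := by
      rw [← Real.exp_add]
      apply Real.exp_le_exp.mpr
      linarith
    have := mul_le_mul_of_nonneg_left h3 hκ.le
    linarith
  have hdc : ∀ x : ℝ, DiffContOnCl ℂ P (Metric.ball (x : ℂ) (1 / 2)) := by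
    intro x
    have : DifferentiableOn ℂ P (closure (Metric.ball (x : ℂ) (1 / 2))) := by
      refine hon.mono fun t ht => ?_
      have h1 := Metric.closure_ball_subset_closedBall ht
      have := (hsph x t h1).1
      rw [mem_ofPred_eq]
      linarith
    exact this.diffContOnCl
  have hE : ∀ x : ℝ, 0 ≤ K * EE (κ * Real.exp (-1)) x := fun x => mul_nonneg hK (EE_pos _ _).le
  refine ⟨?_, fun x => ?_, fun x => ?_, fun x => ?_⟩
  · rw [contDiff_iff_contDiffAt]
    intro x
    have h1 : ContDiffAt ℝ ∞ P (x : ℂ) := ((han x (hr x)).contDiffAt (n := ∞)).restrict_scalars ℝ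
    exact h1.comp x (Complex.ofRealCLM.contDiff.contDiffAt)
  · have := hbs x x (Metric.mem_closedBall_self (by norm_num))
    have := hE x
    linarith
  · rw [e1]
    have := norm_deriv_le_of_forall_mem_sphere_norm_le (by norm_num : (0 : ℝ) < 1 / 2) (hdc x)
      (fun t ht => hbs x t (Metric.sphere_subset_closedBall ht))
    have := hE x
    simp only
    linarith
  · rw [e1, (hd1 x).deriv]
    have h1 := norm_iteratedDeriv_le_of_forall_mem_sphere_norm_le 2 (by norm_num : (0 : ℝ) < 1 / 2) (hdc x)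
      (fun t ht => hbs x t (Metric.sphere_subset_closedBall ht))
    have e2 : iteratedDeriv 2 P (x : ℂ) = deriv (deriv P) x := by
      rw [iteratedDeriv_succ, iteratedDeriv_one]
    rw [e2] at h1
    have e3 : ((2).factorial : ℝ) * (K * EE (κ * Real.exp (-1)) x) / (1 / 2) ^ 2 = 8 * K * EE (κ * Real.exp (-1)) x := by
      norm_num
      ring
    rw [e3] at h1
    exact h1

open Pool.Agent.Helper242

/-- the Riemann kernel as a complex function on the line -/
noncomputable def Rk (x : ℝ) : ℂ := KK.PhC x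

lemma Rk_SB : ∃ c C : ℝ, 0 < c ∧ SB c C Rk := by
  obtain ⟨A, hA, hb⟩ := RK.PhiC_bound (Y := 1 / 4) (by norm_num) (by linarith [Real.pi_gt_three])
  have hcos : 0 < Real.cos (4 * (1 / 4)) := Real.cos_pos_of_mem_Ioo ⟨by linarith [Real.pi_pos], by
    linarith [Real.pi_gt_three]⟩
  set κ : ℝ := Real.pi * Real.cos (4 * (1 / 4)) with hκ
  have hκ0 : 0 < κ := by positivity
  set K : ℝ := 2 * A * Real.exp (81 / (16 * κ)) with hK
  refine ⟨κ / 2 * Real.exp (-1), 8 * K, by positivity, ?_⟩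
  refine SB_of_strip (P := KK.PhC) (Y := Real.pi / 4) (by linarith [Real.pi_gt_three]) ?_ (by positivity) ?_
  · intro t ht
    unfold KK.PhC
    have hm : t / 2 ∈ RK.S := by
      show |(t / 2).im| < Real.pi / 8
      have e : (t / 2).im = t.im / 2 := by simp
      rw [e, abs_div, abs_of_pos (by norm_num : (0 : ℝ) < 2)]
      linarith
    have h1 := RK.differentiableAt_PhiC hm
    have h2 : DifferentiableAt ℂ (fun t : ℂ => RK.PhiC (t / 2)) t :=
      DifferentiableAt.comp (f := fun t : ℂ => t / 2) (g := RK.PhiC) t h1 (differentiableAt_id.div_const 2)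
    exact h2.const_mul 2
  · intro t ht
    unfold KK.PhC
    have ei : (t / 2).im = t.im / 2 := by simp
    have er : (t / 2).re = t.re / 2 := by simp
    have h1 := hb (t / 2) (by
      rw [ei, abs_div, abs_of_pos (by norm_num : (0 : ℝ) < 2)]
      linarith)
    rw [er, abs_div, abs_of_pos (by norm_num : (0 : ℝ) < 2)] at h1
    rw [norm_mul, Complex.norm_ofNat]
    set u := |t.re| with hu
    have hu0 : 0 ≤ u := abs_nonneg _
    have h2 : 9 * (u / 2) - κ * Real.exp (4 * (u / 2)) ≤ 81 / (16 * κ) + -(κ / 2 * Real.exp (2 * u)) := by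
      have h3 := Real.quadratic_le_exp_of_nonneg (x := 2 * u) (by positivity)
      have h4 : κ / 2 * (2 * u ^ 2) ≤ κ / 2 * Real.exp (2 * u) := by
        apply mul_le_mul_of_nonneg_left _ (by positivity)
        nlinarith
      have h5 : 9 / 2 * u ≤ κ * u ^ 2 + 81 / (16 * κ) := by
        have h6 : 0 ≤ (κ * u - 9 / 4) ^ 2 := sq_nonneg _
        have h7 : κ * u ^ 2 + 81 / (16 * κ) - 9 / 2 * u = (κ * u - 9 / 4) ^ 2 / κ := by
          field_simp
          ring
        have h8 : 0 ≤ (κ * u - 9 / 4) ^ 2 / κ := by positivity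
        linarith
      have e : 4 * (u / 2) = 2 * u := by ring
      rw [e]
      linarith
    calc 2 * ‖RK.PhiC (t / 2)‖ ≤ 2 * (A * Real.exp (9 * (u / 2) - κ * Real.exp (4 * (u / 2)))) := by
          apply mul_le_mul_of_nonneg_left h1 (by norm_num)
      _ ≤ 2 * (A * Real.exp (81 / (16 * κ) + -(κ / 2 * Real.exp (2 * u)))) := by
          gcongr
      _ = _ := by rw [Real.exp_add, hK]; ring

/-- the transform of the kernel -/
noncomputable def Gz (z : ℂ) : ℂ := 1 / 2 * (1 / 2 + z) * ((1 / 2 + z) - 1) * completedRiemannZeta (1 / 2 + z)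

lemma LT_Rk {z : ℂ} (hz : z.re = 0) : W.LT Rk z = Gz z := by
  have h1 := KK.FT_Ph (1 / 2 + z) (-I * z) (by
    have : I * (-I * z) = z := by
      rw [← mul_assoc, mul_neg, Complex.I_mul_I, neg_neg, one_mul]
    rw [this]) (by
      intro h
      have := congrArg Complex.re h
      simp [hz] at this) (by
      intro h
      have := congrArg Complex.re h
      simp [hz] at this)
  unfold Gz
  rw [← h1]
  unfold W.LT KK.FT Rk
  congr 1
  funext x
  rw [KK.PhC_ofReal]
  have : I * (-I * z) * (x : ℂ) = z * x := by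
    rw [← mul_assoc I, mul_neg, Complex.I_mul_I, neg_neg, one_mul]
  rw [this]

open Pool.Agent.V11271.LI (Zr mm cfg_zeta zz mm_one_le reflE zz_refl mm_refl zeta_anal)

lemma Gz_zero (ρ : Zr) : Gz (zz ρ) = 0 := by
  have e : 1 / 2 + zz ρ = (ρ : ℂ) := by
    unfold zz
    ring
  have h0 : (ρ : ℂ) ≠ 0 := by
    intro h
    have := ρ.2.2.1
    rw [h] at this
    simp at this
  have hG : Gammaℝ (ρ : ℂ) ≠ 0 := Gammaℝ_ne_zero_of_re_pos ρ.2.2.1
  have h1 := riemannZeta_def_of_ne_zero h0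
  rw [ρ.2.1] at h1
  have h2 : completedRiemannZeta (ρ : ℂ) = 0 := by
    rcases div_eq_zero_iff.mp h1.symm with h | h
    · exact h
    · exact absurd h hG
  unfold Gz
  rw [e, h2, mul_zero]

lemma order_ne_top {s : ℂ} (hs : s ≠ 1) : analyticOrderAt riemannZeta s ≠ ⊤ := by
  rw [← Pool.Agent.V11271.LI.ord_FF hs]
  exact H353.FF_order_ne_top s

lemma Gz_factor {w : ℂ} (hw : w.re = 0) : ∃ (n : ℕ) (h : ℂ → ℂ), AnalyticAt ℂ h w ∧ h w ≠ 0 ∧
    ∀ᶠ z in 𝓝 w, Gz z = (z - w) ^ n * h z := by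
  have h0 : 1 / 2 + w ≠ 0 := by
    intro h
    have := congrArg Complex.re h
    simp [hw] at this
  have h1 : 1 / 2 + w ≠ 1 := by
    intro h
    have := congrArg Complex.re h
    simp [hw] at this
  have han : AnalyticAt ℂ Gz w := by
    have hd : DifferentiableOn ℂ completedRiemannZeta ({0, 1}ᶜ : Set ℂ) := by
      intro s hs
      rw [mem_compl_iff, mem_insert_iff, mem_singleton_iff, not_or] at hs
      exact (differentiableAt_completedZeta hs.1 hs.2).differentiableWithinAt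
    have hop : IsOpen ({0, 1}ᶜ : Set ℂ) := (Set.Finite.isClosed (by simp)).isOpen_compl
    have h2 : AnalyticAt ℂ completedRiemannZeta (1 / 2 + w) :=
      hd.analyticAt (hop.mem_nhds (by
        rw [mem_compl_iff, mem_insert_iff, mem_singleton_iff, not_or]
        exact ⟨h0, h1⟩))
    have h3 : AnalyticAt ℂ (fun z : ℂ => 1 / 2 + z) w := by fun_prop
    have h4 : AnalyticAt ℂ (fun z : ℂ => completedRiemannZeta (1 / 2 + z)) w :=
      AnalyticAt.comp (g := completedRiemannZeta) (f := fun z : ℂ => 1 / 2 + z) h2 h3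
    have h5 : AnalyticAt ℂ (fun z : ℂ => 1 / 2 * (1 / 2 + z) * ((1 / 2 + z) - 1)) w := by fun_prop
    exact h5.mul h4
  have hne : ¬ ∀ᶠ z in 𝓝 w, Gz z = 0 := by
    intro hev
    have hcont : Tendsto (fun s : ℂ => s - 1 / 2) (𝓝 (1 / 2 + w)) (𝓝 w) := by
      have h2 : Continuous fun s : ℂ => s - 1 / 2 := by fun_prop
      have := h2.tendsto (1 / 2 + w)
      rwa [add_sub_cancel_left] at this
    have h2 : ∀ᶠ s in 𝓝 (1 / 2 + w), riemannZeta s = 0 := by
      filter_upwards [hcont.eventually hev, isOpen_ne.mem_nhds h0, isOpen_ne.mem_nhds h1] with s hs hs0 hs1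
      unfold Gz at hs
      have e2 : 1 / 2 + (s - 1 / 2) = s := by ring
      rw [e2] at hs
      have h3 : completedRiemannZeta s = 0 := by
        refine (mul_eq_zero.mp hs).resolve_left ?_
        exact mul_ne_zero (mul_ne_zero (by norm_num) hs0) (sub_ne_zero.mpr hs1)
      rw [riemannZeta_def_of_ne_zero hs0, h3, zero_div]
    exact order_ne_top h1 (analyticOrderAt_eq_top.mpr h2)
  obtain ⟨n, h, hh, hh0, hev⟩ := (AnalyticAt.exists_eventuallyEq_pow_smul_nonzero_iff han).mpr hne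
  exact ⟨n, h, hh, hh0, hev⟩

lemma mw_of {D : Dat} {ρ : D.ι} {w : ℂ} (h : D.z ρ = w) : mw D w = D.m ρ := by
  classical
  unfold mw
  rw [tsum_eq_single ρ]
  · rw [if_pos h]
  · intro ρ' hne
    rw [if_neg]
    intro h2
    exact hne (D.inj (h2.trans h.symm))

lemma mw_none {D : Dat} {w : ℂ} (h : ∀ ρ : D.ι, D.z ρ ≠ w) : mw D w = 0 := by
  classical
  unfold mw
  simp only [h, if_false, tsum_zero]

lemma mw_eq {w : ℂ} (hw : w.re = 0) : mw zetaDat w = (analyticOrderNatAt riemannZeta (1 / 2 + w) : ℝ) := by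
  have h1 : 1 / 2 + w ≠ 1 := by
    intro h
    have := congrArg Complex.re h
    simp [hw] at this
  have hre : (1 / 2 + w).re = 1 / 2 := by simp [hw]
  by_cases h : riemannZeta (1 / 2 + w) = 0
  · set ρ : Zr := ⟨1 / 2 + w, h, by rw [hre]; norm_num, by rw [hre]; norm_num⟩ with hρ
    have hz : zetaDat.z ρ = w := by
      show (1 / 2 + w) - 1 / 2 = w
      ring
    rw [mw_of hz]
    rfl
  · have e : ∀ ρ : zetaDat.ι, zetaDat.z ρ ≠ w := by
      intro ρ h2
      apply h
      have h3 : (ρ : Zr).1 - 1 / 2 = w := h2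
      have h4 : 1 / 2 + w = (ρ : Zr).1 := by
        rw [← h3]
        ring
      rw [h4]
      exact (ρ : Zr).2.1
    have e2 : analyticOrderNatAt riemannZeta (1 / 2 + w) = 0 := by
      unfold analyticOrderNatAt
      rw [(zeta_anal h1).analyticOrderAt_eq_zero.mpr h]
      rfl
    rw [e2, mw_none e, Nat.cast_zero]

open Classical in
/-- the masses near a point of the line -/
theorem zeta_mass (hR : ∀ ρ : Zr, (zz ρ).re = 0) {w : ℂ} (hw : w.re = 0) : ∃ c r A : ℝ, 0 < c ∧ 0 < r ∧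
    ∀ a : ℝ, A ≤ a → 0 < a → ∀ (ζ : Type) (p : ζ → ℂ) (ν : ζ → ℝ), TraceF zetaDat a p ν →
      |(∑' s, if ‖p s - w‖ ≤ Real.exp (-(c * Real.exp (2 * a))) then ν s else 0) -
          (analyticOrderNatAt riemannZeta (1 / 2 + w) : ℝ)| ≤ Real.exp (-(c * Real.exp (2 * a))) ∧
        (∑' s, if Real.exp (-(c * Real.exp (2 * a))) < ‖p s - w‖ ∧ ‖p s - w‖ < r then ν s else 0) ≤
          Real.exp (-(c * Real.exp (2 * a))) := by
  obtain ⟨c, C, hc, hSB⟩ := Rk_SB
  obtain ⟨n, h, hh, hh0, hev⟩ := Gz_factor hw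
  obtain ⟨M, c', A, hM, hc', hT⟩ := tfam (D := zetaDat) hR hw hc hSB (G := Gz) (h := h) (n := n)
    hh.continuousAt hh0 hev (fun z hz => LT_Rk hz) (fun ρ => Gz_zero ρ)
  obtain ⟨r, A', hr, hA'⟩ := mass_conv (D := zetaDat) hR hw hM hc' hT
  rw [mw_eq hw] at hA'
  exact ⟨c' / 4, r, A', by positivity, hr, hA'⟩

end Pool.Agent.Helper61.GR
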