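import Pool.Agent.Helper61.GS.Gd

set_option autoImplicit false

/-!
# Functions of doubly exponential decay
-/

namespace Pool.Agent.Helper61.GR

open Complex Filter Topology Set MeasureTheory
open Pool.Agent.Helper61.W Pool.Agent.Helper61.W.GS
open scoped ComplexConjugate ContDiff

/-- the weight -/
noncomputable def EE (c x : ℝ) : ℝ := Real.exp (-(c * Real.exp (2 * |x|)))

lemma EE_pos (c x : ℝ) : 0 < EE c x := Real.exp_pos _

lemma EE_cont (c : ℝ) : Continuous (EE c) := by unfold EE; fun_prop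

lemma EE_le_one {c : ℝ} (hc : 0 < c) (x : ℝ) : EE c x ≤ 1 := by
  unfold EE
  apply Real.exp_le_one_iff.mpr
  have : 0 < c * Real.exp (2 * |x|) := by positivity
  linarith

lemma EE_anti {c d : ℝ} (h : c ≤ d) (x : ℝ) : EE d x ≤ EE c x := by
  unfold EE
  apply Real.exp_le_exp.mpr
  have := mul_le_mul_of_nonneg_right h (Real.exp_pos (2 * |x|)).le
  linarith

lemma EE_int {c : ℝ} (hc : 0 < c) : Integrable (EE c) := by
  refine (integrable_exp_neg_mul_sq hc).mono' (EE_cont c).aestronglyMeasurable (Eventually.of_forall fun x => ?_)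
  rw [Real.norm_of_nonneg (EE_pos c x).le]
  unfold EE
  apply Real.exp_le_exp.mpr
  have h1 := Real.quadratic_le_exp_of_nonneg (x := 2 * |x|) (by positivity)
  have h2 : x ^ 2 ≤ Real.exp (2 * |x|) := by
    have := sq_abs x
    nlinarith [abs_nonneg x]
  nlinarith

lemma EE_tail {c r x : ℝ} (hc : 0 < c) (hx : r ≤ |x|) :
    EE c x ≤ Real.exp (-(c / 2 * Real.exp (2 * r))) * EE (c / 2) x := by
  unfold EE
  rw [← Real.exp_add]
  apply Real.exp_le_exp.mpr
  have h1 : Real.exp (2 * r) ≤ Real.exp (2 * |x|) := Real.exp_le_exp.mpr (by linarith)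
  have := mul_le_mul_of_nonneg_left h1 (by positivity : 0 ≤ c / 2)
  linarith

/-- functions of doubly exponential decay -/
structure SB (c C : ℝ) (f : ℝ → ℂ) : Prop where
  smooth : ContDiff ℝ ∞ f
  b0 : ∀ x, ‖f x‖ ≤ C * EE c x
  b1 : ∀ x, ‖deriv f x‖ ≤ C * EE c x
  b2 : ∀ x, ‖deriv (deriv f) x‖ ≤ C * EE c x

variable {c C : ℝ} {f g : ℝ → ℂ}

lemma SB.C_nonneg (h : SB c C f) : 0 ≤ C := by
  have h1 := (norm_nonneg _).trans (h.b0 0)
  exact nonneg_of_mul_nonneg_left h1 (EE_pos c 0)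

lemma SB.mono {c' C' : ℝ} (h : SB c C f) (hc : c' ≤ c) (hC : C ≤ C') : SB c' C' f := by
  have h1 : ∀ x, C * EE c x ≤ C' * EE c' x := fun x =>
    mul_le_mul hC (EE_anti hc x) (EE_pos _ _).le (h.C_nonneg.trans hC)
  exact ⟨h.smooth, fun x => (h.b0 x).trans (h1 x), fun x => (h.b1 x).trans (h1 x), fun x => (h.b2 x).trans (h1 x)⟩

lemma SB.cont (h : SB c C f) : Continuous f := h.smooth.continuous

lemma SB.diff (h : SB c C f) : Differentiable ℝ f := h.smooth.differentiable (by simp)

lemma SB.smooth1 (h : SB c C f) : ContDiff ℝ ∞ (deriv f) := (contDiff_infty_iff_deriv.mp h.smooth).2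

lemma SB.hd (h : SB c C f) (x : ℝ) : HasDerivAt f (deriv f x) x := (h.diff x).hasDerivAt

lemma SB.hd1 (h : SB c C f) (x : ℝ) : HasDerivAt (deriv f) (deriv (deriv f) x) x :=
  ((h.smooth1.differentiable (by simp)) x).hasDerivAt

lemma int_of_bound (hc : 0 < c) (hf : Continuous f) (h : ∀ x, ‖f x‖ ≤ C * EE c x) : Integrable f :=
  ((EE_int hc).const_mul C).mono' hf.aestronglyMeasurable (Eventually.of_forall h)

lemma norm_cexp_line {z : ℂ} (hz : z.re = 0) (x : ℝ) : ‖cexp (z * x)‖ = 1 := by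
  rw [Complex.norm_exp]
  simp [hz]

lemma int_exp (hc : 0 < c) (hf : Continuous f) (h : ∀ x, ‖f x‖ ≤ C * EE c x) {z : ℂ} (hz : z.re = 0) :
    Integrable fun x : ℝ => f x * cexp (z * x) := by
  refine ((EE_int hc).const_mul C).mono' (by fun_prop) (Eventually.of_forall fun x => ?_)
  rw [norm_mul, norm_cexp_line hz, mul_one]
  exact h x

/-- the integral of the weight -/
noncomputable def IE (c : ℝ) : ℝ := ∫ x, EE c x

lemma IE_nonneg (c : ℝ) : 0 ≤ IE c := integral_nonneg fun x => (EE_pos c x).le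

lemma LT_norm_le (hc : 0 < c) (h : ∀ x, ‖f x‖ ≤ C * EE c x) {z : ℂ} (hz : z.re = 0) :
    ‖W.LT f z‖ ≤ C * IE c := by
  unfold W.LT IE
  rw [← integral_const_mul]
  refine norm_integral_le_of_norm_le ((EE_int hc).const_mul C) (Eventually.of_forall fun x => ?_)
  rw [norm_mul, norm_cexp_line hz, mul_one]
  exact h x

/-- the transform of the derivative -/
lemma LT_dv (hc : 0 < c) {f' : ℝ → ℂ} (hf : ∀ x, HasDerivAt f (f' x) x) (hf' : Continuous f')
    (h0 : ∀ x, ‖f x‖ ≤ C * EE c x) (h1 : ∀ x, ‖f' x‖ ≤ C * EE c x) {z : ℂ} (hz : z.re = 0) :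
    W.LT f' z = -(z * W.LT f z) := by
  have hfc : Continuous f := continuous_iff_continuousAt.mpr fun x => (hf x).continuousAt
  have he : ∀ x : ℝ, HasDerivAt (fun x : ℝ => cexp (z * x)) (z * cexp (z * x)) x := by
    intro x
    have h2 : HasDerivAt (fun x : ℝ => z * (x : ℂ)) z x := by
      have := (Complex.ofRealCLM.hasDerivAt (x := x)).const_mul z
      simpa using this
    refine h2.cexp.congr_deriv ?_
    ring
  have h3 := integral_mul_deriv_eq_deriv_mul_of_integrable (u := f) (v := fun x : ℝ => cexp (z * x))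
    (u' := f') (v' := fun x : ℝ => z * cexp (z * x)) (fun x _ => hf x) (fun x _ => he x)
    (by
      have := (int_exp hc hfc h0 hz).const_mul z
      refine this.congr (Eventually.of_forall fun x => ?_)
      simp only [Pi.mul_apply]
      ring)
    (int_exp hc hf' h1 hz) (int_exp hc hfc h0 hz)
  unfold W.LT
  have h4 : ∫ x : ℝ, f x * (z * cexp (z * x)) = z * ∫ x : ℝ, f x * cexp (z * x) := by
    rw [← integral_const_mul]
    congr 1
    funext x
    ring
  rw [h4] at h3
  rw [h3, neg_neg]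

lemma LT_add' (hc : 0 < c) (hf : Continuous f) (hg : Continuous g) (h0 : ∀ x, ‖f x‖ ≤ C * EE c x)
    (h1 : ∀ x, ‖g x‖ ≤ C * EE c x) {z : ℂ} (hz : z.re = 0) :
    W.LT (fun x => f x + g x) z = W.LT f z + W.LT g z := by
  unfold W.LT
  rw [← integral_add (int_exp hc hf h0 hz) (int_exp hc hg h1 hz)]
  congr 1
  funext x
  ring

/-- continuity along the line -/
lemma LT_cont (hc : 0 < c) (hf : Continuous f) (h0 : ∀ x, ‖f x‖ ≤ C * EE c x) :
    Continuous fun y : ℝ => W.LT f (y * I) := by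
  unfold W.LT
  refine continuous_of_dominated (bound := fun x => C * EE c x) (fun y => ?_) (fun y => ?_)
    ((EE_int hc).const_mul C) (Eventually.of_forall fun x => ?_)
  · fun_prop
  · refine Eventually.of_forall fun x => ?_
    rw [norm_mul, norm_cexp_line (by simp), mul_one]
    exact h0 x
  · fun_prop

end Pool.Agent.Helper61.GR
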